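import Pool.Agent.H541R3.AND.Trans

/-! # Low energy states are spread out around good sites -/

set_option autoImplicit false

open scoped BigOperators
open MeasureTheory

namespace Pool.Agent.H541R3.AND.Deloc

open Pool.Agent.H4R2.AE Pool.Agent.H541R3.AND.Heat Pool.Agent.H541R3.AND.Trans

/-- the site `x0` is good at scale `h` for the energy `Es` -/
def GoodAt {d : ℕ} (h : ℕ) (lam K Es : ℝ) (V : Zd d → ℝ) (x0 : Zd d) : Prop :=
  ∃ (E0 : ℝ) (ψ : T d (2 * h + 1) → ℝ), |E0 - Es| ≤ K / ((2 * h + 1 : ℕ) : ℝ) ^ 2 ∧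
    (∀ x, 1 ≤ ψ x ∧ ψ x ≤ 2) ∧ ∀ x, Hop lam (VT h V x0) ψ x = E0 * ψ x

/-- numerical choice of the number of steps -/
theorem steps (κ : ℝ) (hκ : 0 < κ) (hκ1 : κ ≤ 1) (h : ℕ) (hh : 1 / (h : ℝ) ≤ κ) (hpos : 0 < h) :
    ⌊1 / κ⌋₊ ≤ h ∧ 1 / (2 * κ) ≤ (⌊1 / κ⌋₊ : ℝ) ∧ (⌊1 / κ⌋₊ : ℝ) * κ ≤ 1 := by
  have hh0 : (0 : ℝ) < h := by exact_mod_cast hpos
  have h1 : 1 / κ ≤ h := by
    rw [div_le_iff₀ hκ]
    rw [div_le_iff₀ hh0] at hh
    linarith
  have h2 : 1 ≤ 1 / κ := by rw [le_div_iff₀ hκ]; linarith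
  refine ⟨?_, ?_, ?_⟩
  · exact_mod_cast (Nat.floor_le (by positivity)).trans h1
  · have h3 := Nat.lt_floor_add_one (1 / κ)
    have h4 : (1 : ℝ) ≤ (⌊1 / κ⌋₊ : ℝ) := by exact_mod_cast Nat.floor_pos.2 h2
    have h5 : 1 / (2 * κ) = (1 / κ) / 2 := by field_simp
    rw [h5]
    linarith
  · have h3 := Nat.floor_le (show 0 ≤ 1 / κ by positivity)
    calc (⌊1 / κ⌋₊ : ℝ) * κ ≤ 1 / κ * κ := mul_le_mul_of_nonneg_right h3 hκ.le
      _ = 1 := by field_simp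

/-- polynomial of the energy -/
noncomputable def q (c0 b E : ℝ) : ℝ := 1 - 1 / b * (E - c0)

theorem q_low (K Es E0 κ b E : ℝ) (hK : 0 ≤ K) (L : ℕ) (hb : 2 * (K + 2) ≤ b)
    (hE0 : |E0 - Es| ≤ K / (L : ℝ) ^ 2) (hκ : 1 / (L : ℝ) ^ 2 ≤ κ)
    (hE : E ≤ Es + κ) (n : ℕ) (hn : (n : ℝ) * κ ≤ 1) (hκ1 : κ ≤ 1) :
    1 / 2 ≤ q (E0 - 1 / (L : ℝ) ^ 2) b E ^ n := by
  have hb0 : 0 < b := by linarith
  have hκ0 : 0 ≤ κ := le_trans (by positivity) hκ
  have h1 : K / (L : ℝ) ^ 2 ≤ K * κ := by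
    rw [div_eq_mul_one_div]
    exact mul_le_mul_of_nonneg_left hκ hK
  have h2 : E - (E0 - 1 / (L : ℝ) ^ 2) ≤ (K + 2) * κ := by
    have := (abs_le.1 hE0).1
    linarith
  have h3 : 1 - (K + 2) * κ / b ≤ q (E0 - 1 / (L : ℝ) ^ 2) b E := by
    unfold q
    have : 1 / b * (E - (E0 - 1 / (L : ℝ) ^ 2)) ≤ 1 / b * ((K + 2) * κ) :=
      mul_le_mul_of_nonneg_left h2 (by positivity)
    have e : 1 / b * ((K + 2) * κ) = (K + 2) * κ / b := by ring
    linarith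
  have h4 : (K + 2) * κ / b ≤ 1 / 2 := by
    rw [div_le_iff₀ hb0]
    nlinarith
  have h4' : 0 ≤ (K + 2) * κ / b := by positivity
  have h5 : (1 : ℝ) + n * (-((K + 2) * κ / b)) ≤ (1 + -((K + 2) * κ / b)) ^ n :=
    one_add_mul_le_pow (by linarith) n
  have h6 : (n : ℝ) * ((K + 2) * κ / b) ≤ 1 / 2 := by
    have : (n : ℝ) * ((K + 2) * κ / b) = (n * κ) * ((K + 2) / b) := by ring
    rw [this]
    have h7 : (K + 2) / b ≤ 1 / 2 := by
      rw [div_le_iff₀ hb0]; linarith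
    have h8 : 0 ≤ (K + 2) / b := by positivity
    have h9 : (n : ℝ) * κ * ((K + 2) / b) ≤ 1 * (1 / 2) :=
      mul_le_mul hn h7 h8 zero_le_one
    linarith
  calc (1 : ℝ) / 2 ≤ 1 + n * (-((K + 2) * κ / b)) := by linarith
    _ ≤ (1 + -((K + 2) * κ / b)) ^ n := h5
    _ ≤ q (E0 - 1 / (L : ℝ) ^ 2) b E ^ n :=
      pow_le_pow_left₀ (by linarith) (by linarith) n

theorem qz_eig {d : ℕ} (c0 b lam E : ℝ) (V φ : Zd d → ℝ) (hE : ∀ x, HZ lam V φ x = E * φ x)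
    (n : ℕ) : (QZ c0 b lam V)^[n] φ = fun x => q c0 b E ^ n * φ x := by
  induction n with
  | zero => funext x; simp
  | succ n ih =>
    rw [Function.iterate_succ_apply', ih]
    funext x
    have h1 : HZ lam V (fun x => q c0 b E ^ n * φ x) x = q c0 b E ^ n * HZ lam V φ x := by
      unfold HZ
      rw [mul_add, Finset.mul_sum]
      congr 1
      · exact Finset.sum_congr rfl fun i _ => by ring
      · ring
    show q c0 b E ^ n * φ x - 1 / b * (HZ lam V (fun x => q c0 b E ^ n * φ x) x -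
      c0 * (q c0 b E ^ n * φ x)) = _
    rw [h1, hE, pow_succ]
    unfold q
    ring

theorem hz_lin {d : ℕ} (lam : ℝ) (V f g : Zd d → ℝ) (α β : ℝ) (x : Zd d) :
    HZ lam V (fun x => α * f x + β * g x) x = α * HZ lam V f x + β * HZ lam V g x := by
  have h : ∑ i : Fin d, (2 * (α * f x + β * g x) -
      (α * f (x + Pi.single i 1) + β * g (x + Pi.single i 1)) -
      (α * f (x - Pi.single i 1) + β * g (x - Pi.single i 1))) =
      α * ∑ i : Fin d, (2 * f x - f (x + Pi.single i 1) - f (x - Pi.single i 1)) +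
      β * ∑ i : Fin d, (2 * g x - g (x + Pi.single i 1) - g (x - Pi.single i 1)) := by
    rw [Finset.mul_sum, Finset.mul_sum, ← Finset.sum_add_distrib]
    exact Finset.sum_congr rfl fun i _ => by ring
  unfold HZ
  rw [h]
  ring

theorem iter_smul_add {d : ℕ} (lam : ℝ) (V f g : Zd d → ℝ) (α β : ℝ) (j : ℕ) :
    (HZ lam V)^[j] (fun x => α * f x + β * g x) =
      fun x => α * (HZ lam V)^[j] f x + β * (HZ lam V)^[j] g x := by
  induction j with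
  | zero => rfl
  | succ j ih =>
    rw [Function.iterate_succ_apply', ih, Function.iterate_succ_apply',
      Function.iterate_succ_apply']
    funext x
    exact hz_lin lam V _ _ α β x

theorem moments {d : ℕ} (c0 b lam : ℝ) (V : Zd d → ℝ) (x0 : Zd d) (m : Measure ℝ)
    (hm : ∀ j : ℕ, Integrable (fun E : ℝ => E ^ j) m ∧
      ∫ E, E ^ j ∂m = (HZ lam V)^[j] (Pi.single x0 1) x0) (n : ℕ) : ∀ j : ℕ,
    Integrable (fun E : ℝ => E ^ j * q c0 b E ^ n) m ∧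
      ∫ E, E ^ j * q c0 b E ^ n ∂m =
        (HZ lam V)^[j] ((QZ c0 b lam V)^[n] (Pi.single x0 1)) x0 := by
  induction n with
  | zero => intro j; simpa using hm j
  | succ n ih =>
    intro j
    have e : (fun E : ℝ => E ^ j * q c0 b E ^ (n + 1)) = fun E =>
        (1 + c0 / b) * (E ^ j * q c0 b E ^ n) + (-(1 / b)) * (E ^ (j + 1) * q c0 b E ^ n) := by
      funext E
      rw [pow_succ (q c0 b E) n]
      unfold q
      ring
    rw [e]
    refine ⟨((ih j).1.const_mul _).add ((ih (j + 1)).1.const_mul _), ?_⟩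
    rw [integral_add ((ih j).1.const_mul _) ((ih (j + 1)).1.const_mul _), integral_const_mul,
      integral_const_mul, (ih j).2, (ih (j + 1)).2, Function.iterate_succ_apply' (QZ c0 b lam V)]
    set h := (QZ c0 b lam V)^[n] (Pi.single x0 1) with hh
    have e2 : QZ c0 b lam V h = fun x => (1 + c0 / b) * h x + (-(1 / b)) * HZ lam V h x := by
      funext x
      unfold QZ
      ring
    rw [e2, iter_smul_add, Function.iterate_succ_apply]

theorem main (d : ℕ) (hd : 3 ≤ d) (K : ℝ) (hK : 0 ≤ K) : ∃ C : ℝ, 0 < C ∧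
    ∀ (h : ℕ) (lam Es : ℝ) (V : Zd d → ℝ) (x0 : Zd d), 0 < h → GoodAt h lam K Es V x0 →
      ∀ κ : ℝ, 1 / (h : ℝ) ≤ κ → κ ≤ 1 →
      (∀ E : ℝ, E ≤ Es + κ → ∀ φ : Zd d → ℝ, Summable (fun x => φ x ^ 2) →
        (∀ x, HZ lam V φ x = E * φ x) → φ x0 ^ 2 ≤ C * κ ^ ((d : ℝ) / 2) * ∑' x, φ x ^ 2) ∧
      ∀ m : Measure ℝ, IsFiniteMeasure m → (∀ j : ℕ, Integrable (fun E : ℝ => E ^ j) m ∧
        ∫ E, E ^ j ∂m = (HZ lam V)^[j] (Pi.single x0 1) x0) →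
        m.real (Set.Iic (Es + κ)) ≤ C * κ ^ ((d : ℝ) / 2) := by
  set b : ℝ := 2 * (4 * (d : ℝ) + 1) + 2 * (K + 2) with hb
  have hd0 : (0 : ℝ) ≤ d := Nat.cast_nonneg d
  obtain ⟨C, hC, hT⟩ := torus d hd b (by linarith)
  refine ⟨4 * C * 2 ^ ((d : ℝ) / 2), by positivity, ?_⟩
  intro h lam Es V x0 hpos hgood κ hκh hκ1
  obtain ⟨E0, ψ, hE0, hψ, heig⟩ := hgood
  have hh0 : (0 : ℝ) < h := by exact_mod_cast hpos
  have hκ0 : 0 < κ := lt_of_lt_of_le (by positivity) hκh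
  obtain ⟨hn1, hn2, hn3⟩ := steps κ hκ0 hκ1 h hκh hpos
  set n := ⌊1 / κ⌋₊ with hn
  set c0 : ℝ := E0 - 1 / ((2 * h + 1 : ℕ) : ℝ) ^ 2 with hc0
  have hLκ : 1 / ((2 * h + 1 : ℕ) : ℝ) ^ 2 ≤ κ := by
    refine le_trans ?_ hκh
    apply one_div_le_one_div_of_le hh0
    push_cast
    nlinarith
  have hheat := hT (2 * h + 1) lam E0 (VT h V x0) ψ (fun x => (hψ x).1) (fun x => (hψ x).2) heig 0 n
  obtain ⟨hp1, hp2⟩ := iter_props h c0 b lam V x0 n hn1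
  set f := (QZ c0 b lam V)^[n] (Pi.single x0 1) with hf
  have hS : (∑ x ∈ box h x0, f x ^ 2) * (n : ℝ) ^ ((d : ℝ) / 2) ≤ C := by
    rw [hp2]; exact hheat
  have hS0 : 0 ≤ ∑ x ∈ box h x0, f x ^ 2 := Finset.sum_nonneg fun x _ => sq_nonneg _
  -- the bound in terms of κ
  have hS1 : ∑ x ∈ box h x0, f x ^ 2 ≤ C * 2 ^ ((d : ℝ) / 2) * κ ^ ((d : ℝ) / 2) := by
    have h1 : (1 / (2 * κ)) ^ ((d : ℝ) / 2) ≤ (n : ℝ) ^ ((d : ℝ) / 2) :=
      Real.rpow_le_rpow (by positivity) hn2 (by positivity)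
    have h2 : (∑ x ∈ box h x0, f x ^ 2) * (1 / (2 * κ)) ^ ((d : ℝ) / 2) ≤ C :=
      (mul_le_mul_of_nonneg_left h1 hS0).trans hS
    have h3 : (1 / (2 * κ)) ^ ((d : ℝ) / 2) * (2 ^ ((d : ℝ) / 2) * κ ^ ((d : ℝ) / 2)) = 1 := by
      rw [← Real.mul_rpow (by norm_num) hκ0.le, ← Real.mul_rpow (by positivity) (by positivity)]
      have : 1 / (2 * κ) * (2 * κ) = 1 := by field_simp
      rw [this, Real.one_rpow]
    calc ∑ x ∈ box h x0, f x ^ 2 = (∑ x ∈ box h x0, f x ^ 2) *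
          ((1 / (2 * κ)) ^ ((d : ℝ) / 2) * (2 ^ ((d : ℝ) / 2) * κ ^ ((d : ℝ) / 2))) := by
          rw [h3, mul_one]
      _ = ((∑ x ∈ box h x0, f x ^ 2) * (1 / (2 * κ)) ^ ((d : ℝ) / 2)) *
          (2 ^ ((d : ℝ) / 2) * κ ^ ((d : ℝ) / 2)) := by ring
      _ ≤ C * (2 ^ ((d : ℝ) / 2) * κ ^ ((d : ℝ) / 2)) :=
          mul_le_mul_of_nonneg_right h2 (by positivity)
      _ = _ := by ring
  have hq : ∀ E : ℝ, E ≤ Es + κ → 1 / 2 ≤ q c0 b E ^ n := fun E hE =>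
    q_low K Es E0 κ b E hK (2 * h + 1) (by linarith) hE0 hLκ hE n hn3 hκ1
  refine ⟨fun E hE φ hφ hφE => ?_, fun m _ hm => ?_⟩
  · have h1 := symm_iter c0 b lam V φ n _ (FS.single x0)
    rw [pair_single, qz_eig c0 b lam E V φ hφE n, ← hf] at h1
    have h2 : ∑' x, f x * φ x = ∑ x ∈ box h x0, f x * φ x :=
      tsum_eq_sum fun x hx => by rw [hp1 x hx, zero_mul]
    rw [h2] at h1
    have h3 := Finset.sum_mul_sq_le_sq_mul_sq (box h x0) f φ
    rw [h1] at h3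
    have h4 : ∑ x ∈ box h x0, φ x ^ 2 ≤ ∑' x, φ x ^ 2 :=
      hφ.sum_le_tsum _ (fun x _ => sq_nonneg _)
    have h5 : 0 ≤ ∑' x, φ x ^ 2 := tsum_nonneg fun x => sq_nonneg _
    have h6 := hq E hE
    have h7 : (1 / 2 : ℝ) ^ 2 * φ x0 ^ 2 ≤ (q c0 b E ^ n * φ x0) ^ 2 := by
      rw [mul_pow]
      exact mul_le_mul_of_nonneg_right (pow_le_pow_left₀ (by norm_num) h6 2) (sq_nonneg _)
    have h8 : (∑ x ∈ box h x0, f x ^ 2) * ∑ x ∈ box h x0, φ x ^ 2 ≤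
        C * 2 ^ ((d : ℝ) / 2) * κ ^ ((d : ℝ) / 2) * ∑' x, φ x ^ 2 :=
      mul_le_mul hS1 h4 (Finset.sum_nonneg fun x _ => sq_nonneg _) (by positivity)
    have e4 : 4 * C * 2 ^ ((d : ℝ) / 2) * κ ^ ((d : ℝ) / 2) * ∑' x, φ x ^ 2 =
        4 * (C * 2 ^ ((d : ℝ) / 2) * κ ^ ((d : ℝ) / 2) * ∑' x, φ x ^ 2) := by ring
    rw [e4]
    linarith
  · have h1 := moments c0 b lam V x0 m hm (n + n) 0
    simp only [pow_zero, one_mul, Function.iterate_zero, id] at h1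
    obtain ⟨hi, h1⟩ := h1
    have h2 : (QZ c0 b lam V)^[n + n] (Pi.single x0 1) x0 = ∑ x ∈ box h x0, f x ^ 2 := by
      rw [Function.iterate_add_apply, ← hf, ← pair_single x0 ((QZ c0 b lam V)^[n] f),
        ← symm_iter c0 b lam V f n _ (FS.single x0), ← hf]
      rw [tsum_eq_sum (s := box h x0) fun x hx => by rw [hp1 x hx, zero_mul]]
      exact Finset.sum_congr rfl fun x _ => by ring
    rw [h2] at h1
    have h3 : m.real (Set.Iic (Es + κ)) * (1 / 4) ≤ ∫ E, q c0 b E ^ (n + n) ∂m := by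
      have h4 : ∫ E in Set.Iic (Es + κ), (1 / 4 : ℝ) ∂m ≤
          ∫ E in Set.Iic (Es + κ), q c0 b E ^ (n + n) ∂m := by
        refine setIntegral_mono_on (integrable_const _).integrableOn hi.integrableOn
          measurableSet_Iic fun E hE => ?_
        have h5 := hq E hE
        rw [pow_add]
        nlinarith
      rw [setIntegral_const, smul_eq_mul] at h4
      refine h4.trans (setIntegral_le_integral hi ?_)
      refine Filter.Eventually.of_forall fun E => ?_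
      show (0 : ℝ) ≤ q c0 b E ^ (n + n)
      rw [pow_add]
      exact mul_self_nonneg _
    rw [h1] at h3
    have e4 : 4 * C * 2 ^ ((d : ℝ) / 2) * κ ^ ((d : ℝ) / 2) =
        4 * (C * 2 ^ ((d : ℝ) / 2) * κ ^ ((d : ℝ) / 2)) := by ring
    rw [e4]
    linarith

end Pool.Agent.H541R3.AND.Deloc
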