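import Pool.Agent.H541R3.AND.Nash

/-! # Decay of powers of the shifted Hamiltonian on the torus, flat ground state -/

set_option autoImplicit false

open scoped BigOperators

namespace Pool.Agent.H541R3.AND.Heat

open Pool.Agent.H4R2.AE Pool.Agent.H541R3.AND.Nash

theorem decay (d : ℕ) (hd : 3 ≤ d) (b : ℝ) (hb : 2 * (4 * (d : ℝ) + 1) ≤ b) : ∃ C : ℝ, 0 < C ∧
    ∀ (L : ℕ) [NeZero L] (u g : T d L → ℝ), (∀ x, 1 ≤ u x) → (∀ x, u x ≤ 2) →
      ∑ x, u x ^ 2 * |g x| ≤ 2 → ∀ n : ℕ,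
        (∑ x, u x ^ 2 * ((Pg b u)^[n] g x) ^ 2) * (n : ℝ) ^ ((d : ℝ) / 2) ≤ C := by
  obtain ⟨C, hC, hnash⟩ := nash d hd
  have hd3 : (3 : ℝ) ≤ d := by exact_mod_cast hd
  have hd0 : 0 < (d : ℝ) := by linarith
  have hb0 : 0 < b := by linarith
  set c : ℝ := 1 / b * ((1 / 4 : ℝ) ^ (((d : ℝ) + 2) / d) / (C * 2 ^ (4 / (d : ℝ)))) with hc
  have hC0 : 0 < C := by linarith
  have hc0 : 0 < c := by positivity
  set D : ℝ := 2 / d * c with hD
  have hD0 : 0 < D := by positivity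
  refine ⟨(1 / D) ^ ((d : ℝ) / 2), by positivity, ?_⟩
  intro L _ u g hu hu2 hg n
  set a : ℕ → ℝ := fun n => ∑ x, u x ^ 2 * ((Pg b u)^[n] g x) ^ 2 with ha
  have ha0 : ∀ n, 0 ≤ a n := fun n => Finset.sum_nonneg fun x _ => by positivity
  have hl1 : ∀ n, ∑ x, u x ^ 2 * |(Pg b u)^[n] g x| ≤ 2 := by
    intro n
    induction n with
    | zero => simpa using hg
    | succ n ih =>
      rw [Function.iterate_succ_apply']
      exact (stepl1 b (by linarith) u _ hu hu2).trans ih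
  have hrec : ∀ n, a (n + 1) ≤ a n - c * a n ^ (1 + 2 / (d : ℝ)) := by
    intro n
    set h := (Pg b u)^[n] g with hh
    have h1 : a (n + 1) ≤ a n - 1 / b * Qf u h := by
      have := stepl2 b hb u h hu hu2
      simp only [ha, Function.iterate_succ_apply']
      exact this
    have h2 := hnash L u h hu
    have hW : ∑ x, |h x| ≤ 2 := by
      refine le_trans (Finset.sum_le_sum fun x _ => ?_) (hl1 n)
      have : 1 ≤ u x ^ 2 := by have := hu x; nlinarith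
      nlinarith [abs_nonneg (h x)]
    have hW0 : 0 ≤ ∑ x, |h x| := Finset.sum_nonneg fun x _ => abs_nonneg _
    have h3 : a n / 4 ≤ ∑ x, h x ^ 2 := by
      have : a n ≤ ∑ x, 4 * h x ^ 2 := by
        refine Finset.sum_le_sum fun x _ => ?_
        have h4 : u x ^ 2 ≤ 4 := by have := hu x; have := hu2 x; nlinarith
        exact mul_le_mul_of_nonneg_right h4 (sq_nonneg _)
      rw [← Finset.mul_sum] at this
      linarith
    have hQ := Qf_nonneg u h hu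
    have h5 : (a n / 4) ^ (((d : ℝ) + 2) / d) ≤ C * Qf u h * 2 ^ (4 / (d : ℝ)) := by
      refine (Real.rpow_le_rpow (by have := ha0 n; positivity) h3 (by positivity)).trans
        (h2.trans ?_)
      exact mul_le_mul_of_nonneg_left (Real.rpow_le_rpow hW0 hW (by positivity)) (by positivity)
    have e1 : (a n / 4) ^ (((d : ℝ) + 2) / d) =
        a n ^ (1 + 2 / (d : ℝ)) * (1 / 4 : ℝ) ^ (((d : ℝ) + 2) / d) := by
      rw [div_eq_mul_one_div, Real.mul_rpow (ha0 n) (by norm_num)]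
      congr 2
      field_simp
    rw [e1] at h5
    have h6 : c * a n ^ (1 + 2 / (d : ℝ)) ≤ 1 / b * Qf u h := by
      rw [hc]
      have : (1 / 4 : ℝ) ^ (((d : ℝ) + 2) / d) / (C * 2 ^ (4 / (d : ℝ))) *
          a n ^ (1 + 2 / (d : ℝ)) ≤ Qf u h := by
        rw [div_mul_eq_mul_div, div_le_iff₀ (by positivity)]
        linarith
      rw [mul_assoc]
      exact mul_le_mul_of_nonneg_left this (by positivity)
    linarith
  have hα1 : 2 / (d : ℝ) ≤ 1 := by rw [div_le_one hd0]; linarith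
  have h7 := recur c (2 / d) hc0 (by positivity) hα1 a ha0 hrec n
  have h8 : a n ^ (2 / (d : ℝ)) * n ≤ 1 / D := by
    rw [le_div_iff₀ hD0]
    calc a n ^ (2 / (d : ℝ)) * n * D = a n ^ (2 / (d : ℝ)) * (2 / d * c * n) := by rw [hD]; ring
      _ ≤ 1 := h7
  have hn0 : (0 : ℝ) ≤ n := Nat.cast_nonneg n
  have h9 := Real.rpow_le_rpow (mul_nonneg (Real.rpow_nonneg (ha0 n) _) hn0) h8
    (show (0 : ℝ) ≤ (d : ℝ) / 2 by positivity)
  rw [Real.mul_rpow (Real.rpow_nonneg (ha0 n) _) hn0, ← Real.rpow_mul (ha0 n)] at h9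
  have e2 : 2 / (d : ℝ) * ((d : ℝ) / 2) = 1 := by field_simp
  rw [e2, Real.rpow_one] at h9
  exact h9

/-- `1 - (H - c₀)/b` on the torus -/
noncomputable def QT {d L : ℕ} (c0 b lam : ℝ) (V f : T d L → ℝ) (x : T d L) : ℝ :=
  f x - 1 / b * (Hop lam V f x - c0 * f x)

theorem conj {d L : ℕ} [NeZero L] (b lam E0 : ℝ) (V ψ g : T d L → ℝ) (h1 : ∀ x, 1 ≤ ψ x)
    (he : ∀ x, Hop lam V ψ x = E0 * ψ x) :
    QT (E0 - 1 / (L : ℝ) ^ 2) b lam V (fun y => ψ y * g y) = fun x => ψ x * Pg b ψ g x := by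
  funext x
  have hx : ψ x ≠ 0 := by have := h1 x; positivity
  have h := Gs.lapW_hop lam V ψ g x
  rw [he x] at h
  have e : Hop lam V (fun y => ψ y * g y) x = LapW ψ g x / ψ x + E0 * (ψ x * g x) := by
    rw [h]
    field_simp
    ring
  unfold QT Pg Ag
  rw [e]
  field_simp
  ring

theorem conj_iter {d L : ℕ} [NeZero L] (b lam E0 : ℝ) (V ψ : T d L → ℝ) (h1 : ∀ x, 1 ≤ ψ x)
    (he : ∀ x, Hop lam V ψ x = E0 * ψ x) (n : ℕ) (g : T d L → ℝ) :
    (QT (E0 - 1 / (L : ℝ) ^ 2) b lam V)^[n] (fun y => ψ y * g y) =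
      fun x => ψ x * (Pg b ψ)^[n] g x := by
  induction n generalizing g with
  | zero => rfl
  | succ n ih =>
    rw [Function.iterate_succ_apply, conj b lam E0 V ψ g h1 he, ih, Function.iterate_succ_apply]

/-- decay of `‖(1 - (H - E₀ + L⁻²)/b)^n δ_z‖²` -/
theorem torus (d : ℕ) (hd : 3 ≤ d) (b : ℝ) (hb : 2 * (4 * (d : ℝ) + 1) ≤ b) : ∃ C : ℝ, 0 < C ∧
    ∀ (L : ℕ) [NeZero L] (lam E0 : ℝ) (V ψ : T d L → ℝ), (∀ x, 1 ≤ ψ x) → (∀ x, ψ x ≤ 2) →
      (∀ x, Hop lam V ψ x = E0 * ψ x) → ∀ (z : T d L) (n : ℕ),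
        (∑ x, ((QT (E0 - 1 / (L : ℝ) ^ 2) b lam V)^[n] (Pi.single z 1) x) ^ 2) *
          (n : ℝ) ^ ((d : ℝ) / 2) ≤ C := by
  obtain ⟨C, hC, h⟩ := decay d hd b hb
  refine ⟨C, hC, ?_⟩
  intro L _ lam E0 V ψ h1 h2 he z n
  have hz : 0 < ψ z := by have := h1 z; linarith
  have e1 : (Pi.single z 1 : T d L → ℝ) = fun y => ψ y * (Pi.single z (ψ z)⁻¹ : T d L → ℝ) y := by
    funext y
    by_cases hy : y = z
    · subst hy
      rw [Pi.single_eq_same, Pi.single_eq_same, mul_inv_cancel₀ hz.ne']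
    · rw [Pi.single_eq_of_ne hy, Pi.single_eq_of_ne hy, mul_zero]
  have h3 := h L ψ (Pi.single z (ψ z)⁻¹) h1 h2 (by
    rw [Finset.sum_eq_single z]
    · rw [Pi.single_eq_same, abs_of_pos (inv_pos.2 hz)]
      have : ψ z ^ 2 * (ψ z)⁻¹ = ψ z := by field_simp
      rw [this]
      exact h2 z
    · intro y _ hy
      rw [Pi.single_eq_of_ne hy]
      simp
    · intro hn
      exact absurd (Finset.mem_univ _) hn) n
  rw [e1, conj_iter b lam E0 V ψ h1 he]
  refine le_trans (le_of_eq ?_) h3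
  congr 1
  exact Finset.sum_congr rfl fun x _ => by ring

end Pool.Agent.H541R3.AND.Heat
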