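import Pool.Agent.H541R3.AND.Vel

/-! # The Anderson model `-Δ + λ V_ω` with bounded single-site density: zero velocity,
no ballistic transport (statement in terms of propagators) -/

set_option autoImplicit false

open MeasureTheory Filter Topology
open scoped BigOperators ENNReal NNReal InnerProductSpace

namespace Pool.Agent.H541R3.AND.Model

/-- `ℓ²(ℤ^d)` -/
abbrev L2 (d : ℕ) : Type := lp (fun _ : Fin d → ℤ => ℂ) 2

/-- `-Δ + λ V_ω` -/
noncomputable def H {d : ℕ} (lam : ℝ) (ω : (Fin d → ℤ) → ℝ) (u : (Fin d → ℤ) → ℂ)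
    (x : Fin d → ℤ) : ℂ :=
  -(∑ i : Fin d, ((u (x + Pi.single i 1) - u x) + (u (x - Pi.single i 1) - u x))) +
    ((lam * ω x : ℝ) : ℂ) * u x

/-- `U t = e^{-itH}` -/
def IsPropagator {d : ℕ} (lam : ℝ) (ω : (Fin d → ℤ) → ℝ) (U : ℝ → L2 d → L2 d) : Prop :=
  (∀ u, U 0 u = u) ∧ (∀ t u, ‖U t u‖ = ‖u‖) ∧
  ∀ u t x, HasDerivAt (fun s => (U s u) x) (-Complex.I * H lam ω (fun y => (U t u) y) x) t

/-- the velocity operator `i[H, x_i]` -/
def IsVelocity {d : ℕ} (i : Fin d) (v : L2 d → L2 d) : Prop :=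
  ∀ u x, (v u) x = -Complex.I * (u (x + Pi.single i 1) - u (x - Pi.single i 1))

/-- the law of iid variables with law `μ` -/
noncomputable def iid (d : ℕ) (μ : Measure ℝ) : Measure ((Fin d → ℤ) → ℝ) :=
  Measure.infinitePi fun _ => μ

/-- `E ∑_x |x|² |⟨δ_x, e^{-itH} δ_0⟩|²` -/
noncomputable def msd {d : ℕ} (μ : Measure ℝ) (U : ((Fin d → ℤ) → ℝ) → ℝ → L2 d → L2 d)
    (t : ℝ) : ℝ≥0∞ :=
  ∫⁻ ω, ∑' x : Fin d → ℤ, ENNReal.ofReal (∑ i : Fin d, (x i : ℝ) ^ 2) *
    ‖(U ω t (lp.single 2 (0 : Fin d → ℤ) (1 : ℂ))) x‖ₑ ^ 2 ∂(iid d μ)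

/-- mean square of the averaged velocity -/
noncomputable def meanSquare {d : ℕ} (μ : Measure ℝ)
    (U : ((Fin d → ℤ) → ℝ) → ℝ → L2 d → L2 d) (v : L2 d → L2 d)
    (ψ : ((Fin d → ℤ) → ℝ) → L2 d) (T : ℝ) : ℝ≥0∞ :=
  ∫⁻ ω, ‖((T : ℂ)⁻¹) • ∫ s in (0 : ℝ)..T, U ω (-s) (v (U ω s (ψ ω)))‖ₑ ^ 2 ∂(iid d μ)

open Pool.Agent.H5R2.NB Pool.Agent.H5R2.NBA

theorem hop_eq {d : ℕ} (lam : ℝ) (ω : (Fin d → ℤ) → ℝ) (u : (Fin d → ℤ) → ℂ)
    (x : Fin d → ℤ) :
    hopf (-1) u x + ((lam * ω x + 2 * d : ℝ) : ℂ) * u x = H lam ω u x := by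
  unfold hopf H
  have h : ∑ i : Fin d, ((u (x + Pi.single i 1) - u x) + (u (x - Pi.single i 1) - u x)) =
      ∑ i : Fin d, (u (x + Pi.single i 1) + u (x - Pi.single i 1)) - 2 * (d : ℂ) * u x := by
    rw [Finset.sum_add_distrib, Finset.sum_sub_distrib, Finset.sum_sub_distrib,
      Finset.sum_add_distrib]
    simp
    ring
  rw [h]
  push_cast
  ring

theorem sol_of_prop {d : ℕ} {lam : ℝ} {ω : (Fin d → ℤ) → ℝ} {U : ℝ → L2 d → L2 d}
    (hU : IsPropagator lam ω U) (u : L2 d) :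
    IsSol (-1) (fun x => lam * ω x + 2 * d) (fun t => U t u) (fun _ => 0) := by
  refine ⟨fun T => ⟨‖u‖, fun t _ => (hU.2.1 t u).le⟩, fun t x => ?_⟩
  have h := hU.2.2 u t x
  have e := hop_eq lam ω (fun k => (U t u) k) x
  have e2 : -Complex.I * (hopf (-1) (fun y => (U t u) y) x +
      (((fun x => lam * ω x + 2 * d) x : ℝ) : ℂ) * (U t u) x) +
        ((0 : L2 d) : (Fin d → ℤ) → ℂ) x =
      -Complex.I * H lam ω (fun k => (U t u) k) x := by
    rw [← e]
    simp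
  rw [e2]
  exact h

theorem prop_of_grp {d : ℕ} {lam : ℝ} {ω : (Fin d → ℤ) → ℝ}
    {W : UG (Pool.Agent.H5R2.NB.L2 (Site d))}
    (hW : IsGrp (-1) (fun x => lam * ω x + 2 * d) W) :
    IsPropagator lam ω (fun t u => W.U t u) := by
  refine ⟨W.zero', W.norm', fun u t x => ?_⟩
  have h := (hW u).2 t x
  have e := hop_eq lam ω (fun k => (W.U t u) k) x
  rw [← e]
  simpa using h

theorem prop_eq {d : ℕ} {lam : ℝ} {ω : (Fin d → ℤ) → ℝ}
    {W : UG (Pool.Agent.H5R2.NB.L2 (Site d))}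
    (hW : IsGrp (-1) (fun x => lam * ω x + 2 * d) W) {U : ℝ → L2 d → L2 d}
    (hU : IsPropagator lam ω U) (t : ℝ) (u : L2 d) : U t u = W.U t u := by
  have h := Pool.Agent.H5R2.NB.ALL.a_UN d (-1) _ W hW (fun t => U t u) (fun _ => 0)
    continuous_const (sol_of_prop hU u) t
  simpa [hU.1 u] using h

/-- the affine change of variables -/
noncomputable def aff (d : ℕ) (lam : ℝ) (h : lam ≠ 0) :
    ((Fin d → ℤ) → ℝ) ≃ᵐ ((Fin d → ℤ) → ℝ) :=
  (Homeomorph.piCongrRight fun _ => affineHomeomorph lam (2 * (d : ℝ)) h).toMeasurableEquiv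

theorem aff_apply (d : ℕ) (lam : ℝ) (h : lam ≠ 0) (ω : (Fin d → ℤ) → ℝ) :
    aff d lam h ω = fun x => lam * ω x + 2 * d := rfl

theorem law (d : ℕ) (lam : ℝ) (h : lam ≠ 0) (μ : Measure ℝ) [IsProbabilityMeasure μ] :
    ∃ _ : IsProbabilityMeasure (μ.map fun r : ℝ => lam * r + 2 * d),
      (iid d μ).map (aff d lam h) = PP d (μ.map fun r : ℝ => lam * r + 2 * d) := by
  have hg : Measurable (fun r : ℝ => lam * r + 2 * (d : ℝ)) := by fun_prop
  have hpm : IsProbabilityMeasure (μ.map fun r : ℝ => lam * r + 2 * (d : ℝ)) :=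
    Measure.isProbabilityMeasure_map hg.aemeasurable
  refine ⟨hpm, ?_⟩
  unfold PP iid
  exact Measure.infinitePi_map_pi (μ := fun _ : Site d => μ) (fun _ => hg)

theorem dens (lam b : ℝ) (h : lam ≠ 0) (μ : Measure ℝ) (M : ℝ≥0) (hM : μ ≤ M • volume) :
    ∃ C : ℝ≥0, (μ.map fun r : ℝ => lam * r + b) ≤ C • volume := by
  refine ⟨M * Real.toNNReal |lam⁻¹|, ?_⟩
  have hg : Measurable (fun r : ℝ => lam * r + b) := by fun_prop
  refine (Measure.map_mono hM hg).trans ?_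
  rw [Measure.map_smul]
  have e : (volume : Measure ℝ).map (fun r : ℝ => lam * r + b) =
      ENNReal.ofReal |lam⁻¹| • volume := by
    have h1 : (fun r : ℝ => lam * r + b) = (fun r => r + b) ∘ (fun r => lam * r) := rfl
    rw [h1, ← Measure.map_map (by fun_prop) (by fun_prop), Real.map_volume_mul_left h,
      Measure.map_smul, map_add_right_eq_self]
  rw [e, mul_smul]
  exact le_of_eq rfl

/-- **Theorem.** -/
theorem main (d : ℕ) (μ : Measure ℝ) [IsProbabilityMeasure μ] (M : ℝ≥0) (hμ : μ ≤ M • volume)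
    (lam : ℝ) (hlam : lam ≠ 0) :
    (∀ ω : (Fin d → ℤ) → ℝ, ∃! U : ℝ → L2 d → L2 d, IsPropagator lam ω U) ∧
    ∀ U : ((Fin d → ℤ) → ℝ) → ℝ → L2 d → L2 d, (∀ ω, IsPropagator lam ω (U ω)) →
      Tendsto (fun t : ℝ => msd μ U t / ENNReal.ofReal (t ^ 2)) atTop (𝓝 0) ∧
      ∀ i : Fin d, ∃ v : L2 d → L2 d, IsVelocity i v ∧
        ∀ ψ : ((Fin d → ℤ) → ℝ) → L2 d, AEStronglyMeasurable ψ (iid d μ) →
          (∀ ω, ‖ψ ω‖ ≤ 1) → Tendsto (meanSquare μ U v ψ) atTop (𝓝 0) := by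
  refine ⟨fun ω => ?_, fun U hU => ?_⟩
  · obtain ⟨W, hW⟩ := Pool.Agent.H5R2.NB.ALL.a_EX d (-1) (fun x => lam * ω x + 2 * d)
    refine ⟨fun t u => W.U t u, prop_of_grp hW, fun U hU => ?_⟩
    funext t u
    exact prop_eq hW hU t u
  · choose ev hev using fun V : Site d → ℝ => Pool.Agent.H5R2.NB.ALL.a_EX d (-1) V
    have hUe : ∀ ω t u, U ω t u = (ev (aff d lam hlam ω)).U t u := fun ω t u =>
      prop_eq (by rw [aff_apply]; exact hev _) (hU ω) t u
    obtain ⟨hpm, hmap⟩ := law d lam hlam μ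
    obtain ⟨C, hC⟩ := dens lam (2 * d) hlam μ M hμ
    refine ⟨?_, fun i => ?_⟩
    · have key := Pool.Agent.H5R2.NB.ALL.a_MAIN d (-1) ev hev _ C hC
      refine key.congr fun t => ?_
      congr 1
      unfold msd
      rw [← hmap, MeasureTheory.lintegral_map_equiv]
      refine lintegral_congr fun ω => ?_
      refine tsum_congr fun x => ?_
      rw [hUe]
      rfl
    · obtain ⟨v, hv⟩ := (t_OPS d).2.2 (-1) i
      refine ⟨v, fun u j => ?_, fun ψ hψ hψ1 => ?_⟩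
      · rw [hv u j]
        push_cast
        ring
      · have key := fin d (-1) ev hev _ C hC i v hv
          (fun V => ψ ((aff d lam hlam).symm V)) 1
          (by
            rw [← hmap]
            refine AEStronglyMeasurable.comp_measurePreserving (ν := iid d μ) hψ ?_
            refine ⟨(aff d lam hlam).symm.measurable, ?_⟩
            rw [Measure.map_map (aff d lam hlam).symm.measurable (aff d lam hlam).measurable]
            simp)
          (fun V => hψ1 _)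
        refine key.congr fun T => ?_
        unfold meanSquare
        rw [← hmap, MeasureTheory.lintegral_map_equiv]
        refine lintegral_congr fun ω => ?_
        rw [(aff d lam hlam).symm_apply_apply]
        congr 3
        refine intervalIntegral.integral_congr fun s _ => ?_
        simp only [hUe]

end Pool.Agent.H541R3.AND.Model
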