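import Pool.Agent.H4R2.AE.Core2

/-! # Nash inequality and heat kernel bound for uniformly elliptic conductances on the torus -/

set_option autoImplicit false

open scoped BigOperators

namespace Pool.Agent.H541R3.AND.Nash

open Pool.Agent.H4R2.AE

/-! ### a recursion -/

theorem recur (c α : ℝ) (hc : 0 < c) (hα : 0 < α) (hα1 : α ≤ 1) (a : ℕ → ℝ) (ha : ∀ n, 0 ≤ a n)
    (h : ∀ n, a (n + 1) ≤ a n - c * a n ^ (1 + α)) (n : ℕ) :
    a n ^ α * (α * c * n) ≤ 1 := by
  induction n with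
  | zero => simp
  | succ n ih =>
    rcases (ha n).eq_or_lt with h0 | h0
    · have h1 := h n
      rw [← h0, Real.zero_rpow (by positivity)] at h1
      have h2 : a (n + 1) = 0 := le_antisymm (by linarith) (ha _)
      rw [h2, Real.zero_rpow hα.ne']
      simp
    · set y := a n ^ α with hy
      have hy0 : 0 < y := Real.rpow_pos_of_pos h0 α
      have e1 : a n ^ (1 + α) = a n * y := by
        rw [Real.rpow_add h0, Real.rpow_one]
      have h1 : a (n + 1) ≤ a n * (1 - c * y) := by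
        have := h n
        rw [e1] at this
        linarith
      have h2 : 0 ≤ 1 - c * y := by
        by_contra h3
        push Not at h3
        have := ha (n + 1)
        nlinarith
      have h4 : a (n + 1) ^ α ≤ y * (1 - c * y) ^ α := by
        refine (Real.rpow_le_rpow (ha _) h1 hα.le).trans ?_
        rw [Real.mul_rpow h0.le h2]
      have h5 : (1 - c * y) ^ α ≤ 1 - α * (c * y) := by
        have := rpow_one_add_le_one_add_mul_self (s := -(c * y)) (by linarith) hα.le hα1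
        calc (1 - c * y) ^ α = (1 + -(c * y)) ^ α := by ring_nf
          _ ≤ 1 + α * -(c * y) := this
          _ = _ := by ring
      have h6 : a (n + 1) ^ α ≤ y * (1 - α * (c * y)) :=
        h4.trans (mul_le_mul_of_nonneg_left h5 hy0.le)
      set t := α * c * y with ht
      have ht0 : 0 ≤ t := by positivity
      have ht1 : t ≤ 1 := by
        have : α * (c * y) ≤ 1 * 1 := mul_le_mul hα1 (by linarith) (by positivity) (by norm_num)
        rw [ht]; linarith
      have ih' : t * n ≤ 1 := by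
        rw [ht]
        calc α * c * y * n = y * (α * c * n) := by ring
          _ ≤ 1 := ih
      push_cast
      have h7 : a (n + 1) ^ α * (α * c * ((n : ℝ) + 1)) ≤
          y * (1 - α * (c * y)) * (α * c * ((n : ℝ) + 1)) :=
        mul_le_mul_of_nonneg_right h6 (by positivity)
      refine h7.trans ?_
      have e2 : y * (1 - α * (c * y)) * (α * c * ((n : ℝ) + 1)) = t * (1 - t) * ((n : ℝ) + 1) := by
        rw [ht]; ring
      rw [e2]
      have hn0 : (0 : ℝ) ≤ n := Nat.cast_nonneg n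
      nlinarith [mul_nonneg (sub_nonneg.2 ih') (sub_nonneg.2 ht1), sq_nonneg t]

/-! ### the walk -/

variable {d L : ℕ} [NeZero L]

/-- Dirichlet form with killing -/
noncomputable def Qf (u g : T d L → ℝ) : ℝ :=
  ∑ i : Fin d, ∑ x, u x * u (x + Pi.single i 1) * (g (x + Pi.single i 1) - g x) ^ 2 +
    1 / (L : ℝ) ^ 2 * ∑ x, u x ^ 2 * g x ^ 2

/-- generator -/
noncomputable def Ag (u g : T d L → ℝ) (x : T d L) : ℝ :=
  LapW u g x / u x ^ 2 + 1 / (L : ℝ) ^ 2 * g x

/-- one step -/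
noncomputable def Pg (b : ℝ) (u g : T d L → ℝ) (x : T d L) : ℝ := g x - 1 / b * Ag u g x

theorem Qf_nonneg (u g : T d L → ℝ) (hu : ∀ x, 1 ≤ u x) : 0 ≤ Qf u g := by
  unfold Qf
  have h1 : 0 ≤ ∑ i : Fin d, ∑ x, u x * u (x + Pi.single i 1) *
      (g (x + Pi.single i 1) - g x) ^ 2 := by
    refine Finset.sum_nonneg fun i _ => Finset.sum_nonneg fun x _ => ?_
    have := hu x
    have := hu (x + Pi.single i 1)
    positivity
  have h2 : 0 ≤ ∑ x, u x ^ 2 * g x ^ 2 := Finset.sum_nonneg fun x _ => by positivity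
  positivity

theorem form (u g : T d L → ℝ) (hu : ∀ x, 1 ≤ u x) :
    ∑ x, u x ^ 2 * (g x * Ag u g x) = Qf u g := by
  have h0 : ∀ x, u x ^ 2 * (g x * Ag u g x) = g x * LapW u g x +
      1 / (L : ℝ) ^ 2 * (u x ^ 2 * g x ^ 2) := by
    intro x
    have : u x ≠ 0 := by have := hu x; positivity
    unfold Ag
    field_simp
  rw [Finset.sum_congr rfl fun x _ => h0 x, Finset.sum_add_distrib, ← Finset.mul_sum]
  unfold Qf
  congr 1
  have h1 : ∀ x, g x * LapW u g x = ∑ i : Fin d,
      (u x * u (x + Pi.single i 1) * (g x - g (x + Pi.single i 1)) * g x +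
        u x * u (x - Pi.single i 1) * (g x - g (x - Pi.single i 1)) * g x) := by
    intro x
    unfold LapW
    rw [Finset.mul_sum]
    exact Finset.sum_congr rfl fun i _ => by ring
  rw [Finset.sum_congr rfl fun x _ => h1 x, Finset.sum_comm]
  refine Finset.sum_congr rfl fun i _ => ?_
  rw [Finset.sum_add_distrib]
  have h2 : ∑ x : T d L, u x * u (x - Pi.single i 1) * (g x - g (x - Pi.single i 1)) * g x =
      ∑ x : T d L, u (x + Pi.single i 1) * u x * (g (x + Pi.single i 1) - g x) *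
        g (x + Pi.single i 1) := by
    refine (Green.sum_shift (fun x : T d L => u x * u (x - Pi.single i 1) *
      (g x - g (x - Pi.single i 1)) * g x) (Pi.single i 1)).symm.trans ?_
    simp only [add_sub_cancel_right]
  rw [h2, ← Finset.sum_add_distrib]
  exact Finset.sum_congr rfl fun x _ => by ring

/-- weighted Cauchy-Schwarz at a site -/
theorem cs (A B α β : Fin d → ℝ) (C γ : ℝ) (hA : ∀ i, 0 ≤ A i) (hB : ∀ i, 0 ≤ B i) (hC : 0 ≤ C) :
    (∑ i, (A i * α i + B i * β i) + C * γ) ^ 2 ≤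
      (∑ i, (A i + B i) + C) * (∑ i, (A i * α i ^ 2 + B i * β i ^ 2) + C * γ ^ 2) := by
  have h := Finset.sum_sq_le_sum_mul_sum_of_sq_le_mul (Finset.univ : Finset (Option (Fin d ⊕ Fin d)))
    (f := fun o => match o with
      | none => C
      | some (Sum.inl i) => A i
      | some (Sum.inr i) => B i)
    (g := fun o => match o with
      | none => C * γ ^ 2
      | some (Sum.inl i) => A i * α i ^ 2
      | some (Sum.inr i) => B i * β i ^ 2)
    (r := fun o => match o with
      | none => C * γ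
      | some (Sum.inl i) => A i * α i
      | some (Sum.inr i) => B i * β i) ?_ ?_ ?_
  · simp only [Fintype.sum_option, Fintype.sum_sum_type] at h
    rw [Finset.sum_add_distrib, Finset.sum_add_distrib, Finset.sum_add_distrib]
    calc _ = (C * γ + (∑ i, A i * α i + ∑ i, B i * β i)) ^ 2 := by ring
      _ ≤ _ := h
      _ = _ := by ring
  · rintro (_ | (i | i)) _
    · exact hC
    · exact hA i
    · exact hB i
  · rintro (_ | (i | i)) _
    · exact mul_nonneg hC (sq_nonneg _)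
    · exact mul_nonneg (hA i) (sq_nonneg _)
    · exact mul_nonneg (hB i) (sq_nonneg _)
  · rintro (_ | (i | i)) _ <;> simp only <;> apply le_of_eq <;> ring

theorem k0_le : 1 / (L : ℝ) ^ 2 ≤ 1 := by
  have hL : (1 : ℝ) ≤ L := by exact_mod_cast Nat.one_le_iff_ne_zero.2 (NeZero.ne L)
  rw [div_le_one (by positivity)]
  nlinarith

theorem deg (u : T d L → ℝ) (hu : ∀ x, 1 ≤ u x) (hu2 : ∀ x, u x ≤ 2) (x : T d L) :
    ∑ i : Fin d, (u x * u (x + Pi.single i 1) + u x * u (x - Pi.single i 1)) +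
      1 / (L : ℝ) ^ 2 * u x ^ 2 ≤ (4 * d + 1) * u x ^ 2 := by
  have h1 : ∑ i : Fin d, (u x * u (x + Pi.single i 1) + u x * u (x - Pi.single i 1)) ≤
      ∑ _i : Fin d, 4 * u x ^ 2 := by
    refine Finset.sum_le_sum fun i _ => ?_
    have := hu x
    have := hu2 (x + Pi.single i 1)
    have := hu2 (x - Pi.single i 1)
    nlinarith
  rw [Finset.sum_const, Finset.card_univ, Fintype.card_fin, nsmul_eq_mul] at h1
  have h2 : 1 / (L : ℝ) ^ 2 * u x ^ 2 ≤ 1 * u x ^ 2 :=
    mul_le_mul_of_nonneg_right k0_le (sq_nonneg _)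
  linarith

theorem normA (u g : T d L → ℝ) (hu : ∀ x, 1 ≤ u x) (hu2 : ∀ x, u x ≤ 2) :
    ∑ x, u x ^ 2 * Ag u g x ^ 2 ≤ 2 * (4 * d + 1) * Qf u g := by
  have hk : (0 : ℝ) ≤ 1 / (L : ℝ) ^ 2 := by positivity
  have h1 : ∀ x, u x ^ 2 * Ag u g x ^ 2 ≤ (4 * d + 1) *
      (∑ i : Fin d, (u x * u (x + Pi.single i 1) * (g x - g (x + Pi.single i 1)) ^ 2 +
        u x * u (x - Pi.single i 1) * (g x - g (x - Pi.single i 1)) ^ 2) +
        1 / (L : ℝ) ^ 2 * u x ^ 2 * g x ^ 2) := by
    intro x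
    have hux : 0 < u x := by have := hu x; linarith
    have h2 := cs (fun i => u x * u (x + Pi.single i 1)) (fun i => u x * u (x - Pi.single i 1))
      (fun i => g x - g (x + Pi.single i 1)) (fun i => g x - g (x - Pi.single i 1))
      (1 / (L : ℝ) ^ 2 * u x ^ 2) (g x)
      (fun i => by have := hu (x + Pi.single i 1); positivity)
      (fun i => by have := hu (x - Pi.single i 1); positivity) (by positivity)
    set S := ∑ i : Fin d, (u x * u (x + Pi.single i 1) * (g x - g (x + Pi.single i 1)) ^ 2 +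
        u x * u (x - Pi.single i 1) * (g x - g (x - Pi.single i 1)) ^ 2) +
        1 / (L : ℝ) ^ 2 * u x ^ 2 * g x ^ 2 with hS
    have hS0 : 0 ≤ S := by
      have : 0 ≤ ∑ i : Fin d, (u x * u (x + Pi.single i 1) * (g x - g (x + Pi.single i 1)) ^ 2 +
        u x * u (x - Pi.single i 1) * (g x - g (x - Pi.single i 1)) ^ 2) := by
        refine Finset.sum_nonneg fun i _ => ?_
        have := hu (x + Pi.single i 1)
        have := hu (x - Pi.single i 1)
        positivity
      positivity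
    have h3 := h2.trans (mul_le_mul_of_nonneg_right (deg u hu hu2 x) hS0)
    have e : u x ^ 2 * Ag u g x ^ 2 = (∑ i : Fin d, (u x * u (x + Pi.single i 1) *
        (g x - g (x + Pi.single i 1)) + u x * u (x - Pi.single i 1) *
          (g x - g (x - Pi.single i 1))) + 1 / (L : ℝ) ^ 2 * u x ^ 2 * g x) ^ 2 / u x ^ 2 := by
      unfold Ag LapW
      field_simp
    rw [e, div_le_iff₀ (by positivity)]
    linarith
  refine (Finset.sum_le_sum fun x _ => h1 x).trans ?_
  rw [← Finset.mul_sum, Finset.sum_add_distrib, Finset.sum_comm]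
  have h4 : ∀ i : Fin d, ∑ x : T d L, (u x * u (x + Pi.single i 1) *
      (g x - g (x + Pi.single i 1)) ^ 2 + u x * u (x - Pi.single i 1) *
        (g x - g (x - Pi.single i 1)) ^ 2) =
      2 * ∑ x : T d L, u x * u (x + Pi.single i 1) * (g (x + Pi.single i 1) - g x) ^ 2 := by
    intro i
    rw [Finset.sum_add_distrib]
    have h2 : ∑ x : T d L, u x * u (x - Pi.single i 1) * (g x - g (x - Pi.single i 1)) ^ 2 =
        ∑ x : T d L, u (x + Pi.single i 1) * u x * (g (x + Pi.single i 1) - g x) ^ 2 := by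
      refine (Green.sum_shift (fun x : T d L => u x * u (x - Pi.single i 1) *
        (g x - g (x - Pi.single i 1)) ^ 2) (Pi.single i 1)).symm.trans ?_
      simp only [add_sub_cancel_right]
    rw [h2, two_mul]
    congr 1
    · exact Finset.sum_congr rfl fun x _ => by ring
    · exact Finset.sum_congr rfl fun x _ => by ring
  rw [Finset.sum_congr rfl fun i _ => h4 i, ← Finset.mul_sum]
  have h5 : ∑ x : T d L, 1 / (L : ℝ) ^ 2 * u x ^ 2 * g x ^ 2 =
      1 / (L : ℝ) ^ 2 * ∑ x, u x ^ 2 * g x ^ 2 := by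
    rw [Finset.mul_sum]
    exact Finset.sum_congr rfl fun x _ => by ring
  rw [h5]
  have h6 : 0 ≤ 1 / (L : ℝ) ^ 2 * ∑ x : T d L, u x ^ 2 * g x ^ 2 := by
    have : 0 ≤ ∑ x : T d L, u x ^ 2 * g x ^ 2 := Finset.sum_nonneg fun x _ => by positivity
    positivity
  unfold Qf
  have hd0 : (0 : ℝ) ≤ 4 * d + 1 := by positivity
  nlinarith

theorem stepl2 (b : ℝ) (hb : 2 * (4 * (d : ℝ) + 1) ≤ b) (u g : T d L → ℝ) (hu : ∀ x, 1 ≤ u x)
    (hu2 : ∀ x, u x ≤ 2) :
    ∑ x, u x ^ 2 * Pg b u g x ^ 2 ≤ ∑ x, u x ^ 2 * g x ^ 2 - 1 / b * Qf u g := by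
  have hb0 : 0 < b := by
    have : (0 : ℝ) ≤ d := Nat.cast_nonneg d
    linarith
  have e : ∑ x, u x ^ 2 * Pg b u g x ^ 2 = ∑ x, u x ^ 2 * g x ^ 2 -
      2 / b * ∑ x, u x ^ 2 * (g x * Ag u g x) + 1 / b ^ 2 * ∑ x, u x ^ 2 * Ag u g x ^ 2 := by
    rw [Finset.mul_sum, Finset.mul_sum, ← Finset.sum_sub_distrib, ← Finset.sum_add_distrib]
    refine Finset.sum_congr rfl fun x _ => ?_
    unfold Pg
    field_simp
    ring
  rw [e, form u g hu]
  have h1 := normA u g hu hu2
  have hQ := Qf_nonneg u g hu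
  have h2 : 1 / b ^ 2 * ∑ x, u x ^ 2 * Ag u g x ^ 2 ≤ 1 / b ^ 2 * (b * Qf u g) := by
    refine mul_le_mul_of_nonneg_left ?_ (by positivity)
    nlinarith
  have e3 : 1 / b ^ 2 * (b * Qf u g) = 1 / b * Qf u g := by field_simp
  have e4 : 2 / b * Qf u g = 1 / b * Qf u g + 1 / b * Qf u g := by ring
  linarith

theorem stepl1 (b : ℝ) (hb : 4 * (d : ℝ) + 1 ≤ b) (u g : T d L → ℝ) (hu : ∀ x, 1 ≤ u x)
    (hu2 : ∀ x, u x ≤ 2) :
    ∑ x, u x ^ 2 * |Pg b u g x| ≤ ∑ x, u x ^ 2 * |g x| := by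
  have hb0 : 0 < b := by
    have : (0 : ℝ) ≤ d := Nat.cast_nonneg d
    linarith
  have h1 : ∀ x, u x ^ 2 * |Pg b u g x| ≤
      (u x ^ 2 - 1 / b * (∑ i : Fin d, (u x * u (x + Pi.single i 1) +
        u x * u (x - Pi.single i 1)) + 1 / (L : ℝ) ^ 2 * u x ^ 2)) * |g x| +
      1 / b * ∑ i : Fin d, (u x * u (x + Pi.single i 1) * |g (x + Pi.single i 1)| +
        u x * u (x - Pi.single i 1) * |g (x - Pi.single i 1)|) := by
    intro x
    have hux : 0 < u x := by have := hu x; linarith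
    have hc : 0 ≤ u x ^ 2 - 1 / b * (∑ i : Fin d, (u x * u (x + Pi.single i 1) +
        u x * u (x - Pi.single i 1)) + 1 / (L : ℝ) ^ 2 * u x ^ 2) := by
      have h2 := deg u hu hu2 x
      have h3 : 1 / b * (∑ i : Fin d, (u x * u (x + Pi.single i 1) +
        u x * u (x - Pi.single i 1)) + 1 / (L : ℝ) ^ 2 * u x ^ 2) ≤ 1 / b * (b * u x ^ 2) := by
        refine mul_le_mul_of_nonneg_left (h2.trans ?_) (by positivity)
        exact mul_le_mul_of_nonneg_right hb (sq_nonneg _)
      have e3 : 1 / b * (b * u x ^ 2) = u x ^ 2 := by field_simp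
      linarith
    have e : u x ^ 2 * Pg b u g x =
        (u x ^ 2 - 1 / b * (∑ i : Fin d, (u x * u (x + Pi.single i 1) +
        u x * u (x - Pi.single i 1)) + 1 / (L : ℝ) ^ 2 * u x ^ 2)) * g x +
        1 / b * ∑ i : Fin d, (u x * u (x + Pi.single i 1) * g (x + Pi.single i 1) +
        u x * u (x - Pi.single i 1) * g (x - Pi.single i 1)) := by
      have e1 : LapW u g x = (∑ i : Fin d, (u x * u (x + Pi.single i 1) +
        u x * u (x - Pi.single i 1))) * g x - ∑ i : Fin d, (u x * u (x + Pi.single i 1) *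
          g (x + Pi.single i 1) + u x * u (x - Pi.single i 1) * g (x - Pi.single i 1)) := by
        unfold LapW
        rw [Finset.sum_mul, ← Finset.sum_sub_distrib]
        exact Finset.sum_congr rfl fun i _ => by ring
      unfold Pg Ag
      rw [e1]
      field_simp
      ring
    rw [← abs_of_pos (show (0 : ℝ) < u x ^ 2 by positivity), ← abs_mul, e,
      abs_of_pos (show (0 : ℝ) < u x ^ 2 by positivity)]
    refine (abs_add_le _ _).trans (add_le_add ?_ ?_)
    · rw [abs_mul, abs_of_nonneg hc]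
    · rw [abs_mul, abs_of_pos (show 0 < 1 / b by positivity)]
      refine mul_le_mul_of_nonneg_left ?_ (by positivity)
      refine (Finset.abs_sum_le_sum_abs _ _).trans (Finset.sum_le_sum fun i _ => ?_)
      have := hu (x + Pi.single i 1)
      have := hu (x - Pi.single i 1)
      refine (abs_add_le _ _).trans (add_le_add ?_ ?_)
      · rw [abs_mul, abs_of_nonneg (by positivity)]
      · rw [abs_mul, abs_of_nonneg (by positivity)]
  refine (Finset.sum_le_sum fun x _ => h1 x).trans ?_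
  rw [Finset.sum_add_distrib, ← Finset.mul_sum (s := Finset.univ) (a := 1 / b), Finset.sum_comm]
  have h4 : ∀ i : Fin d, ∑ x : T d L, (u x * u (x + Pi.single i 1) * |g (x + Pi.single i 1)| +
      u x * u (x - Pi.single i 1) * |g (x - Pi.single i 1)|) =
      ∑ x : T d L, (u x * u (x + Pi.single i 1) + u x * u (x - Pi.single i 1)) * |g x| := by
    intro i
    rw [Finset.sum_add_distrib]
    have h2 : ∑ x : T d L, u x * u (x - Pi.single i 1) * |g (x - Pi.single i 1)| =
        ∑ x : T d L, u (x + Pi.single i 1) * u x * |g x| := by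
      refine (Green.sum_shift (fun x : T d L => u x * u (x - Pi.single i 1) *
        |g (x - Pi.single i 1)|) (Pi.single i 1)).symm.trans ?_
      simp only [add_sub_cancel_right]
    have h3 : ∑ x : T d L, u x * u (x + Pi.single i 1) * |g (x + Pi.single i 1)| =
        ∑ x : T d L, u (x - Pi.single i 1) * u x * |g x| := by
      refine Eq.trans ?_ (Green.sum_shift (fun x : T d L => u (x - Pi.single i 1) * u x * |g x|)
        (Pi.single i 1))
      simp only [add_sub_cancel_right]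
    rw [h2, h3, ← Finset.sum_add_distrib]
    exact Finset.sum_congr rfl fun x _ => by ring
  rw [Finset.sum_congr rfl fun i _ => h4 i, Finset.sum_comm, Finset.mul_sum,
    ← Finset.sum_add_distrib]
  refine Finset.sum_le_sum fun x _ => ?_
  rw [← Finset.sum_mul]
  have h5 : 0 ≤ 1 / b * (1 / (L : ℝ) ^ 2 * u x ^ 2) * |g x| := by positivity
  nlinarith

theorem nash (d : ℕ) (hd : 3 ≤ d) : ∃ C : ℝ, 1 ≤ C ∧ ∀ (L : ℕ) [NeZero L] (u g : T d L → ℝ),
    (∀ x, 1 ≤ u x) → (∑ x, g x ^ 2) ^ (((d : ℝ) + 2) / d) ≤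
      C * Qf u g * (∑ x, |g x|) ^ (4 / (d : ℝ)) := by
  obtain ⟨C, hC, hsob⟩ := Sobt.sobt d hd
  refine ⟨C, hC, fun L _ u g hu => ?_⟩
  have hd3 : (3 : ℝ) ≤ d := by exact_mod_cast hd
  have hd2 : 0 < (d : ℝ) - 2 := by linarith
  have hd0 : 0 < (d : ℝ) := by linarith
  have hs := hsob L (fun x => |g x|) (fun x => abs_nonneg _)
  set S := ∑ x, (fun x => |g x|) x ^ (2 * (d : ℝ) / ((d : ℝ) - 2)) with hS
  have hS0 : 0 ≤ S := Finset.sum_nonneg fun x _ => Real.rpow_nonneg (abs_nonneg _) _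
  have hQ : ∑ i : Fin d, ∑ x : T d L, ((fun x => |g x|) (x + Pi.single i 1) -
      (fun x => |g x|) x) ^ 2 + 1 / (L : ℝ) ^ 2 * ∑ x, (fun x => |g x|) x ^ 2 ≤ Qf u g := by
    unfold Qf
    refine add_le_add ?_ ?_
    · refine Finset.sum_le_sum fun i _ => Finset.sum_le_sum fun x _ => ?_
      have h1 : (|g (x + Pi.single i 1)| - |g x|) ^ 2 ≤ (g (x + Pi.single i 1) - g x) ^ 2 := by
        rw [← sq_abs (|g (x + Pi.single i 1)| - |g x|), ← sq_abs (g (x + Pi.single i 1) - g x)]
        exact pow_le_pow_left₀ (abs_nonneg _) (abs_abs_sub_abs_le _ _) 2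
      refine h1.trans ?_
      have h2 : 1 ≤ u x * u (x + Pi.single i 1) := by
        have := hu x
        have := hu (x + Pi.single i 1)
        nlinarith
      nlinarith [sq_nonneg (g (x + Pi.single i 1) - g x)]
    · refine mul_le_mul_of_nonneg_left (Finset.sum_le_sum fun x _ => ?_) (by positivity)
      simp only [sq_abs]
      have h2 : 1 ≤ u x ^ 2 := by
        have := hu x
        nlinarith
      nlinarith [sq_nonneg (g x)]
  have h1 : S ^ (((d : ℝ) - 2) / d) ≤ C * Qf u g :=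
    hs.trans (mul_le_mul_of_nonneg_left hQ (by linarith))
  -- Hölder
  have hP : (1 : ℝ) < ((d : ℝ) + 2) / ((d : ℝ) - 2) := by
    rw [lt_div_iff₀ hd2]; linarith
  have hconj : (((d : ℝ) + 2) / ((d : ℝ) - 2)).HolderConjugate (((d : ℝ) + 2) / 4) := by
    rw [Real.holderConjugate_iff]
    refine ⟨hP, ?_⟩
    field_simp
    ring
  have hH := Real.inner_le_Lp_mul_Lq (Finset.univ : Finset (T d L))
    (fun x => |g x| ^ (2 * (d : ℝ) / (d + 2))) (fun x => |g x| ^ (4 / ((d : ℝ) + 2))) hconj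
  have e1 : ∀ x : T d L, |g x| ^ (2 * (d : ℝ) / (d + 2)) * |g x| ^ (4 / ((d : ℝ) + 2)) =
      g x ^ 2 := by
    intro x
    rw [← Real.rpow_add_of_nonneg (abs_nonneg _) (by positivity) (by positivity)]
    have : 2 * (d : ℝ) / (d + 2) + 4 / ((d : ℝ) + 2) = 2 := by field_simp; ring
    rw [this, Real.rpow_two, sq_abs]
  have e2 : ∀ x : T d L, |(|g x| ^ (2 * (d : ℝ) / (d + 2)))| ^ (((d : ℝ) + 2) / ((d : ℝ) - 2)) =
      |g x| ^ (2 * (d : ℝ) / ((d : ℝ) - 2)) := by
    intro x
    rw [abs_of_nonneg (Real.rpow_nonneg (abs_nonneg _) _), ← Real.rpow_mul (abs_nonneg _)]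
    congr 1
    field_simp
  have e3 : ∀ x : T d L, |(|g x| ^ (4 / ((d : ℝ) + 2)))| ^ (((d : ℝ) + 2) / 4) = |g x| := by
    intro x
    rw [abs_of_nonneg (Real.rpow_nonneg (abs_nonneg _) _), ← Real.rpow_mul (abs_nonneg _)]
    have : 4 / ((d : ℝ) + 2) * (((d : ℝ) + 2) / 4) = 1 := by field_simp
    rw [this, Real.rpow_one]
  rw [Finset.sum_congr rfl fun x _ => e1 x, Finset.sum_congr rfl fun x _ => e2 x,
    Finset.sum_congr rfl fun x _ => e3 x] at hH
  have hW0 : 0 ≤ ∑ x, |g x| := Finset.sum_nonneg fun x _ => abs_nonneg _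
  have hg0 : 0 ≤ ∑ x, g x ^ 2 := Finset.sum_nonneg fun x _ => sq_nonneg _
  have h2 := Real.rpow_le_rpow hg0 hH (show (0 : ℝ) ≤ ((d : ℝ) + 2) / d by positivity)
  rw [Real.mul_rpow (Real.rpow_nonneg hS0 _) (Real.rpow_nonneg hW0 _),
    ← Real.rpow_mul hS0, ← Real.rpow_mul hW0] at h2
  have e4 : 1 / (((d : ℝ) + 2) / ((d : ℝ) - 2)) * (((d : ℝ) + 2) / d) = ((d : ℝ) - 2) / d := by
    field_simp
  have e5 : 1 / (((d : ℝ) + 2) / 4) * (((d : ℝ) + 2) / d) = 4 / d := by
    field_simp
  rw [e4, e5] at h2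
  exact h2.trans (mul_le_mul_of_nonneg_right h1 (Real.rpow_nonneg hW0 _))

end Pool.Agent.H541R3.AND.Nash
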