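import Pool.Agent.H541R3.AND.Deloc

/-! # Low energy eigenfunctions on a torus with a flat ground state are spread out -/

set_option autoImplicit false

open scoped BigOperators

namespace Pool.Agent.H541R3.AND.TorDel

open Pool.Agent.H4R2.AE Pool.Agent.H541R3.AND.Heat Pool.Agent.H541R3.AND.Deloc

theorem qt_symm {d L : ℕ} [NeZero L] (c0 b lam : ℝ) (V g φ : T d L → ℝ) :
    ∑ x, QT c0 b lam V g x * φ x = ∑ x, g x * QT c0 b lam V φ x := by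
  have h := Gs.hop_symm lam V g φ
  have e1 : ∑ x, QT c0 b lam V g x * φ x = (1 + c0 / b) * ∑ x, g x * φ x -
      1 / b * ∑ x, φ x * Hop lam V g x := by
    rw [Finset.mul_sum, Finset.mul_sum, ← Finset.sum_sub_distrib]
    refine Finset.sum_congr rfl fun x _ => ?_
    unfold QT
    ring
  have e2 : ∑ x, g x * QT c0 b lam V φ x = (1 + c0 / b) * ∑ x, g x * φ x -
      1 / b * ∑ x, g x * Hop lam V φ x := by
    rw [Finset.mul_sum, Finset.mul_sum, ← Finset.sum_sub_distrib]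
    refine Finset.sum_congr rfl fun x _ => ?_
    unfold QT
    ring
  rw [e1, e2, h]

theorem qt_symm_iter {d L : ℕ} [NeZero L] (c0 b lam : ℝ) (V : T d L → ℝ) (n : ℕ) :
    ∀ g φ : T d L → ℝ,
    ∑ x, (QT c0 b lam V)^[n] g x * φ x = ∑ x, g x * (QT c0 b lam V)^[n] φ x := by
  induction n with
  | zero => intro g φ; rfl
  | succ n ih =>
    intro g φ
    rw [Function.iterate_succ_apply', qt_symm, ih, ← Function.iterate_succ_apply]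

theorem qt_eig {d L : ℕ} [NeZero L] (c0 b lam E : ℝ) (V φ : T d L → ℝ)
    (hE : ∀ x, Hop lam V φ x = E * φ x) (n : ℕ) :
    (QT c0 b lam V)^[n] φ = fun x => q c0 b E ^ n * φ x := by
  induction n with
  | zero => funext x; simp
  | succ n ih =>
    rw [Function.iterate_succ_apply', ih]
    funext x
    unfold QT
    rw [Gs.hop_smul, hE, pow_succ]
    unfold q
    ring

theorem main (d : ℕ) (hd : 3 ≤ d) : ∃ C : ℝ, 0 < C ∧ ∀ (L : ℕ) [NeZero L] (lam E0 : ℝ)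
    (V ψ : T d L → ℝ), (∀ x, 1 ≤ ψ x ∧ ψ x ≤ 2) → (∀ x, Hop lam V ψ x = E0 * ψ x) →
    ∀ κ : ℝ, 1 / (L : ℝ) ^ 2 ≤ κ → κ ≤ 1 → ∀ (E : ℝ) (φ : T d L → ℝ), E ≤ E0 + κ →
      (∀ x, Hop lam V φ x = E * φ x) → ∀ z, φ z ^ 2 ≤ C * κ ^ ((d : ℝ) / 2) * ∑ x, φ x ^ 2 := by
  set b : ℝ := 2 * (4 * (d : ℝ) + 1) + 4 with hb
  have hd0 : (0 : ℝ) ≤ d := Nat.cast_nonneg d
  obtain ⟨C, hC, hT⟩ := torus d hd b (by linarith)
  refine ⟨4 * C * 2 ^ ((d : ℝ) / 2), by positivity, ?_⟩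
  intro L _ lam E0 V ψ hψ heig κ hκL hκ1 E φ hE hφ z
  have hL : (1 : ℝ) ≤ L := by exact_mod_cast Nat.one_le_iff_ne_zero.2 (NeZero.ne L)
  have hκ0 : 0 < κ := lt_of_lt_of_le (by positivity) hκL
  obtain ⟨h, hh⟩ : ∃ h : ℕ, 1 / κ < h := exists_nat_gt _
  have hh0 : (0 : ℝ) < h := lt_trans (by positivity) hh
  obtain ⟨-, hn2, hn3⟩ := steps κ hκ0 hκ1 h (by
    rw [div_le_iff₀ hh0]
    rw [div_lt_iff₀ hκ0] at hh
    linarith) (by exact_mod_cast hh0)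
  set n := ⌊1 / κ⌋₊ with hn
  set c0 : ℝ := E0 - 1 / (L : ℝ) ^ 2 with hc0
  have hheat := hT L lam E0 V ψ (fun x => (hψ x).1) (fun x => (hψ x).2) heig z n
  set f := (QT c0 b lam V)^[n] (Pi.single z 1) with hf
  have hS0 : 0 ≤ ∑ x, f x ^ 2 := Finset.sum_nonneg fun x _ => sq_nonneg _
  have hS1 : ∑ x, f x ^ 2 ≤ C * 2 ^ ((d : ℝ) / 2) * κ ^ ((d : ℝ) / 2) := by
    have h1 : (1 / (2 * κ)) ^ ((d : ℝ) / 2) ≤ (n : ℝ) ^ ((d : ℝ) / 2) :=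
      Real.rpow_le_rpow (by positivity) hn2 (by positivity)
    have h2 : (∑ x, f x ^ 2) * (1 / (2 * κ)) ^ ((d : ℝ) / 2) ≤ C :=
      (mul_le_mul_of_nonneg_left h1 hS0).trans hheat
    have h3 : (1 / (2 * κ)) ^ ((d : ℝ) / 2) * (2 ^ ((d : ℝ) / 2) * κ ^ ((d : ℝ) / 2)) = 1 := by
      rw [← Real.mul_rpow (by norm_num) hκ0.le, ← Real.mul_rpow (by positivity) (by positivity)]
      have : 1 / (2 * κ) * (2 * κ) = 1 := by field_simp
      rw [this, Real.one_rpow]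
    calc ∑ x, f x ^ 2 = (∑ x, f x ^ 2) *
          ((1 / (2 * κ)) ^ ((d : ℝ) / 2) * (2 ^ ((d : ℝ) / 2) * κ ^ ((d : ℝ) / 2))) := by
          rw [h3, mul_one]
      _ = ((∑ x, f x ^ 2) * (1 / (2 * κ)) ^ ((d : ℝ) / 2)) *
          (2 ^ ((d : ℝ) / 2) * κ ^ ((d : ℝ) / 2)) := by ring
      _ ≤ C * (2 ^ ((d : ℝ) / 2) * κ ^ ((d : ℝ) / 2)) :=
          mul_le_mul_of_nonneg_right h2 (by positivity)
      _ = _ := by ring
  have h6 : 1 / 2 ≤ q c0 b E ^ n :=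
    q_low 0 E0 E0 κ b E le_rfl L (by linarith) (by simp) hκL hE n hn3 hκ1
  have h1 := qt_symm_iter c0 b lam V n (Pi.single z 1) φ
  rw [← hf, qt_eig c0 b lam E V φ hφ n, Finset.sum_eq_single (a := z)
    (f := fun x => (Pi.single z 1 : T d L → ℝ) x * (q c0 b E ^ n * φ x))
    (fun x _ hx => by rw [Pi.single_eq_of_ne hx, zero_mul])
    (fun hx => absurd (Finset.mem_univ _) hx), Pi.single_eq_same, one_mul] at h1
  have h3 := Finset.sum_mul_sq_le_sq_mul_sq Finset.univ f φ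
  rw [h1] at h3
  have h7 : (1 / 2 : ℝ) ^ 2 * φ z ^ 2 ≤ (q c0 b E ^ n * φ z) ^ 2 := by
    rw [mul_pow]
    exact mul_le_mul_of_nonneg_right (pow_le_pow_left₀ (by norm_num) h6 2) (sq_nonneg _)
  have h5 : 0 ≤ ∑ x, φ x ^ 2 := Finset.sum_nonneg fun x _ => sq_nonneg _
  have h8 : (∑ x, f x ^ 2) * ∑ x, φ x ^ 2 ≤
      C * 2 ^ ((d : ℝ) / 2) * κ ^ ((d : ℝ) / 2) * ∑ x, φ x ^ 2 :=
    mul_le_mul_of_nonneg_right hS1 h5
  have e4 : 4 * C * 2 ^ ((d : ℝ) / 2) * κ ^ ((d : ℝ) / 2) * ∑ x, φ x ^ 2 =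
      4 * (C * 2 ^ ((d : ℝ) / 2) * κ ^ ((d : ℝ) / 2) * ∑ x, φ x ^ 2) := by ring
  rw [e4]
  linarith

end Pool.Agent.H541R3.AND.TorDel
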