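import Pool.Agent.H541R3.AND.Heat

/-! # Transfer from the torus to `ℤ^d` -/

set_option autoImplicit false

open scoped BigOperators

namespace Pool.Agent.H541R3.AND.Trans

open Pool.Agent.H4R2.AE Pool.Agent.H541R3.AND.Heat

abbrev Zd (d : ℕ) : Type := Fin d → ℤ

/-- `-Δ + λ V` on real functions on `ℤ^d` -/
noncomputable def HZ {d : ℕ} (lam : ℝ) (V f : Zd d → ℝ) (x : Zd d) : ℝ :=
  ∑ i : Fin d, (2 * f x - f (x + Pi.single i 1) - f (x - Pi.single i 1)) + lam * V x * f x

/-- `1 - (H - c₀)/b` -/
noncomputable def QZ {d : ℕ} (c0 b lam : ℝ) (V f : Zd d → ℝ) (x : Zd d) : ℝ :=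
  f x - 1 / b * (HZ lam V f x - c0 * f x)

/-- projection to the torus -/
def pr (L : ℕ) {d : ℕ} (v : Zd d) : T d L := fun i => (v i : ZMod L)

/-- representative of smallest absolute value -/
def lift {d L : ℕ} (t : T d L) : Zd d := fun i => (t i).valMinAbs

theorem pr_lift {d L : ℕ} (t : T d L) : pr L (lift t) = t := by
  funext i
  simp [pr, lift]

theorem pr_add {d L : ℕ} (v w : Zd d) : pr L (v + w) = pr L v + pr L w := by
  funext i
  simp [pr]

theorem pr_sub {d L : ℕ} (v w : Zd d) : pr L (v - w) = pr L v - pr L w := by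
  funext i
  simp [pr]

theorem pr_single {d L : ℕ} (i : Fin d) : pr L (Pi.single i 1 : Zd d) = Pi.single i 1 := by
  funext j
  unfold pr
  by_cases h : j = i
  · subst h; simp
  · simp [Pi.single_eq_of_ne h]

theorem lift_pr {d h : ℕ} (v : Zd d) (hv : ∀ i, |v i| ≤ h) : lift (pr (2 * h + 1) v) = v := by
  funext i
  unfold lift pr
  rw [ZMod.valMinAbs_spec]
  refine ⟨rfl, ?_⟩
  have := abs_le.1 (hv i)
  constructor
  · push_cast; omega
  · push_cast; omega

theorem lift_abs {d h : ℕ} (t : T d (2 * h + 1)) (i : Fin d) : |lift t i| ≤ h := by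
  unfold lift
  have := (t i).valMinAbs_mem_Ioc
  rw [Set.mem_Ioc] at this
  push_cast at this
  rw [abs_le]
  constructor
  · omega
  · omega

theorem lift_wrap {d h : ℕ} (w : Zd d) (j : Fin d) (hw : |w j| = h + 1) :
    |lift (pr (2 * h + 1) w) j| = h := by
  unfold lift pr
  rcases abs_cases (w j) with ⟨h1, h2⟩ | ⟨h1, h2⟩
  · have hwj : w j = h + 1 := by omega
    have e : ((w j : ℤ) : ZMod (2 * h + 1)).valMinAbs = -(h : ℤ) := by
      rw [ZMod.valMinAbs_spec]
      refine ⟨?_, ?_⟩
      · rw [hwj]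
        have : ((2 * h + 1 : ℕ) : ZMod (2 * h + 1)) = 0 := ZMod.natCast_self _
        push_cast at this ⊢
        linear_combination this
      · constructor
        · push_cast; omega
        · push_cast; omega
    rw [e, abs_neg]
    simp
  · have hwj : w j = -(h + 1) := by omega
    have e : ((w j : ℤ) : ZMod (2 * h + 1)).valMinAbs = (h : ℤ) := by
      rw [ZMod.valMinAbs_spec]
      refine ⟨?_, ?_⟩
      · rw [hwj]
        have : ((2 * h + 1 : ℕ) : ZMod (2 * h + 1)) = 0 := ZMod.natCast_self _
        push_cast at this ⊢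
        linear_combination -this
      · constructor
        · push_cast; omega
        · push_cast; omega
    rw [e]
    simp

/-- the potential seen from `x0` on the torus -/
def VT {d : ℕ} (h : ℕ) (V : Zd d → ℝ) (x0 : Zd d) (t : T d (2 * h + 1)) : ℝ := V (x0 + lift t)

theorem matching {d : ℕ} (h : ℕ) (c0 b lam : ℝ) (V : Zd d → ℝ) (x0 : Zd d) (n : ℕ) :
    n ≤ h → (∀ v : Zd d, (∀ i, |v i| ≤ h) →
      (QZ c0 b lam V)^[n] (Pi.single x0 1) (x0 + v) =
        (QT c0 b lam (VT h V x0))^[n] (Pi.single 0 1) (pr (2 * h + 1) v)) ∧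
    (∀ v : Zd d, (∃ i, (n : ℤ) < |v i|) → (QZ c0 b lam V)^[n] (Pi.single x0 1) (x0 + v) = 0) := by
  induction n with
  | zero =>
    intro _
    refine ⟨fun v hv => ?_, fun v hv => ?_⟩
    · simp only [Function.iterate_zero, id]
      by_cases h0 : v = 0
      · subst h0
        have : pr (2 * h + 1) (0 : Zd d) = 0 := by funext i; simp [pr]
        rw [this, add_zero, Pi.single_eq_same, Pi.single_eq_same]
      · have h1 : pr (2 * h + 1) v ≠ 0 := by
          intro h2
          apply h0
          have h3 := lift_pr v hv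
          rw [h2] at h3
          rw [← h3]
          funext i
          simp [lift]
        rw [Pi.single_eq_of_ne h1, Pi.single_eq_of_ne]
        intro h2
        apply h0
        simpa using h2
    · obtain ⟨i, hi⟩ := hv
      simp only [Function.iterate_zero, id]
      rw [Pi.single_eq_of_ne]
      intro h2
      have h3 : v = 0 := by simpa using h2
      rw [h3] at hi
      simp at hi
  | succ n ih =>
    intro hn
    obtain ⟨ih1, ih2⟩ := ih (by omega)
    set f := (QZ c0 b lam V)^[n] (Pi.single x0 1) with hf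
    set F := (QT c0 b lam (VT h V x0))^[n] (Pi.single 0 1) with hF
    -- slightly outside the box
    have key : ∀ w : Zd d, (∀ i, |w i| ≤ h + 1) → f (x0 + w) = F (pr (2 * h + 1) w) := by
      intro w hw
      by_cases hw2 : ∀ i, |w i| ≤ h
      · exact ih1 w hw2
      · push Not at hw2
        obtain ⟨j, hj⟩ := hw2
        have hj2 : |w j| = h + 1 := by have := hw j; omega
        rw [ih2 w ⟨j, by omega⟩]
        have h3 := ih1 (lift (pr (2 * h + 1) w)) (lift_abs _)
        rw [pr_lift] at h3
        rw [← h3, ih2 _ ⟨j, by rw [lift_wrap w j hj2]; omega⟩]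
    refine ⟨fun v hv => ?_, fun v hv => ?_⟩
    · rw [Function.iterate_succ_apply', Function.iterate_succ_apply', ← hf, ← hF]
      have e0 : f (x0 + v) = F (pr (2 * h + 1) v) := ih1 v hv
      have e1 : ∀ i : Fin d, f (x0 + v + Pi.single i 1) =
          F (pr (2 * h + 1) v + Pi.single i 1) := by
        intro i
        rw [add_assoc, key (v + Pi.single i 1) ?_, pr_add, pr_single]
        intro j
        have h1 := abs_le.1 (hv j)
        rw [Pi.add_apply]
        by_cases hji : j = i
        · subst hji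
          rw [Pi.single_eq_same, abs_le]
          constructor <;> omega
        · rw [Pi.single_eq_of_ne hji, abs_le]
          constructor <;> omega
      have e2 : ∀ i : Fin d, f (x0 + v - Pi.single i 1) =
          F (pr (2 * h + 1) v - Pi.single i 1) := by
        intro i
        rw [add_sub_assoc, key (v - Pi.single i 1) ?_, pr_sub, pr_single]
        intro j
        have h1 := abs_le.1 (hv j)
        rw [Pi.sub_apply]
        by_cases hji : j = i
        · subst hji
          rw [Pi.single_eq_same, abs_le]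
          constructor <;> omega
        · rw [Pi.single_eq_of_ne hji, abs_le]
          constructor <;> omega
      have e3 : VT h V x0 (pr (2 * h + 1) v) = V (x0 + v) := by
        unfold VT
        rw [lift_pr v hv]
      unfold QZ QT HZ Hop
      simp only [e0, e1, e2, e3]
    · rw [Function.iterate_succ_apply', ← hf]
      obtain ⟨i, hi⟩ := hv
      push_cast at hi
      have e0 : f (x0 + v) = 0 := ih2 v ⟨i, by omega⟩
      have e1 : ∀ j : Fin d, f (x0 + v + Pi.single j 1) = 0 := by
        intro j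
        rw [add_assoc]
        refine ih2 _ ⟨i, ?_⟩
        rw [Pi.add_apply]
        by_cases hji : i = j
        · subst hji
          rw [Pi.single_eq_same]
          rcases abs_cases (v i) with ⟨h1, h2⟩ | ⟨h1, h2⟩
          · exact lt_of_lt_of_le (by omega) (le_abs_self _)
          · exact lt_of_lt_of_le (by omega) (neg_le_abs _)
        · rw [Pi.single_eq_of_ne hji, add_zero]
          omega
      have e2 : ∀ j : Fin d, f (x0 + v - Pi.single j 1) = 0 := by
        intro j
        rw [add_sub_assoc]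
        refine ih2 _ ⟨i, ?_⟩
        rw [Pi.sub_apply]
        by_cases hji : i = j
        · subst hji
          rw [Pi.single_eq_same]
          rcases abs_cases (v i) with ⟨h1, h2⟩ | ⟨h1, h2⟩
          · exact lt_of_lt_of_le (by omega) (le_abs_self _)
          · exact lt_of_lt_of_le (by omega) (neg_le_abs _)
        · rw [Pi.single_eq_of_ne hji, sub_zero]
          omega
      unfold QZ HZ
      simp only [e0, e1, e2]
      simp

/-- the box around `x0` -/
noncomputable def box {d : ℕ} (h : ℕ) (x0 : Zd d) : Finset (Zd d) :=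
  (Finset.univ : Finset (T d (2 * h + 1))).image fun t => x0 + lift t

theorem lift_inj {d L : ℕ} : Function.Injective (lift (d := d) (L := L)) := by
  intro s t hst
  rw [← pr_lift s, ← pr_lift t, hst]

theorem not_box {d : ℕ} (h : ℕ) (x0 x : Zd d) (hx : x ∉ box h x0) :
    ∃ i, (h : ℤ) < |(x - x0) i| := by
  by_contra hc
  push Not at hc
  apply hx
  unfold box
  rw [Finset.mem_image]
  refine ⟨pr (2 * h + 1) (x - x0), Finset.mem_univ _, ?_⟩
  rw [lift_pr _ hc]
  abel

theorem sum_box {d : ℕ} (h : ℕ) (x0 : Zd d) (φ : Zd d → ℝ) :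
    ∑ x ∈ box h x0, φ x = ∑ t : T d (2 * h + 1), φ (x0 + lift t) := by
  unfold box
  rw [Finset.sum_image]
  intro s _ t _ hst
  exact lift_inj (add_left_cancel hst)

/-- support and `ℓ²` norm of the iterates -/
theorem iter_props {d : ℕ} (h : ℕ) (c0 b lam : ℝ) (V : Zd d → ℝ) (x0 : Zd d) (n : ℕ)
    (hn : n ≤ h) :
    (∀ x, x ∉ box h x0 → (QZ c0 b lam V)^[n] (Pi.single x0 1) x = 0) ∧
    ∑ x ∈ box h x0, ((QZ c0 b lam V)^[n] (Pi.single x0 1) x) ^ 2 =
      ∑ t : T d (2 * h + 1), ((QT c0 b lam (VT h V x0))^[n] (Pi.single 0 1) t) ^ 2 := by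
  obtain ⟨h1, h2⟩ := matching h c0 b lam V x0 n hn
  refine ⟨fun x hx => ?_, ?_⟩
  · obtain ⟨i, hi⟩ := not_box h x0 x hx
    have := h2 (x - x0) ⟨i, lt_of_le_of_lt (by exact_mod_cast hn) hi⟩
    rwa [add_sub_cancel] at this
  · rw [sum_box]
    refine Finset.sum_congr rfl fun t _ => ?_
    rw [h1 (lift t) (lift_abs t), pr_lift]

/-! ### symmetry -/

/-- finite support -/
def FS {d : ℕ} (g : Zd d → ℝ) : Prop := (Function.support g).Finite

theorem FS.summable {d : ℕ} {g : Zd d → ℝ} (hg : FS g) (φ : Zd d → ℝ) :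
    Summable fun x => g x * φ x :=
  summable_of_hasFiniteSupport (hg.subset fun x hx => by
    simp only [Function.mem_support] at hx ⊢
    exact left_ne_zero_of_mul hx)

theorem FS.shift {d : ℕ} {g : Zd d → ℝ} (hg : FS g) (e : Zd d) : FS fun x => g (x + e) := by
  have : Function.support (fun x => g (x + e)) = (fun x => x + e) ⁻¹' Function.support g := rfl
  unfold FS
  rw [this]
  exact hg.preimage (fun a _ b _ h => add_right_cancel h)

theorem FS.qz {d : ℕ} {g : Zd d → ℝ} (hg : FS g) (c0 b lam : ℝ) (V : Zd d → ℝ) :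
    FS (QZ c0 b lam V g) := by
  have h1 : (Function.support g ∪ ⋃ i : Fin d, (Function.support (fun x => g (x + Pi.single i 1)) ∪
      Function.support (fun x => g (x + -Pi.single i 1)))).Finite := by
    refine Set.Finite.union hg (Set.finite_iUnion fun i => Set.Finite.union ?_ ?_)
    · exact hg.shift _
    · exact hg.shift _
  refine h1.subset fun x hx => ?_
  by_contra hc
  simp only [Set.mem_union, Set.mem_iUnion, Function.mem_support, not_or, not_exists,
    not_not] at hc
  obtain ⟨h0, h2⟩ := hc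
  apply hx
  unfold QZ HZ
  have e1 : ∀ i : Fin d, g (x - Pi.single i 1) = 0 := fun i => by
    rw [sub_eq_add_neg]; exact (h2 i).2
  simp only [h0, fun i => (h2 i).1, e1]
  simp

theorem FS.iter {d : ℕ} {g : Zd d → ℝ} (hg : FS g) (c0 b lam : ℝ) (V : Zd d → ℝ) (n : ℕ) :
    FS ((QZ c0 b lam V)^[n] g) := by
  induction n with
  | zero => exact hg
  | succ n ih => rw [Function.iterate_succ_apply']; exact ih.qz c0 b lam V

theorem FS.single {d : ℕ} (x0 : Zd d) : FS (Pi.single x0 1 : Zd d → ℝ) := by
  refine (Set.finite_singleton x0).subset fun x hx => ?_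
  by_contra hc
  exact hx (Pi.single_eq_of_ne hc _)

theorem shift_pair {d : ℕ} (g φ : Zd d → ℝ) (e : Zd d) :
    ∑' x, g (x + e) * φ x = ∑' x, g x * φ (x - e) := by
  rw [← (Equiv.addRight e).tsum_eq (fun x => g x * φ (x - e))]
  simp

theorem symm {d : ℕ} (c0 b lam : ℝ) (V g φ : Zd d → ℝ) (hg : FS g) :
    ∑' x, QZ c0 b lam V g x * φ x = ∑' x, g x * QZ c0 b lam V φ x := by
  have hs : ∀ e : Zd d, Summable fun x => g (x + e) * φ x := fun e => (hg.shift e).summable φ
  have hs' : ∀ e : Zd d, Summable fun x => g x * φ (x + e) := fun e =>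
    hg.summable fun x => φ (x + e)
  have L1 : ∀ x, QZ c0 b lam V g x * φ x =
      (1 + c0 / b) * (g x * φ x) - 1 / b * (∑ i : Fin d, (2 * (g x * φ x) -
        g (x + Pi.single i 1) * φ x - g (x + -Pi.single i 1) * φ x)) -
        1 / b * (g x * (lam * V x * φ x)) := by
    intro x
    unfold QZ HZ
    have : ∑ i : Fin d, (2 * (g x * φ x) - g (x + Pi.single i 1) * φ x -
        g (x + -Pi.single i 1) * φ x) =
        (∑ i : Fin d, (2 * g x - g (x + Pi.single i 1) - g (x - Pi.single i 1))) * φ x := by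
      rw [Finset.sum_mul]
      refine Finset.sum_congr rfl fun i _ => ?_
      rw [sub_eq_add_neg x]
      ring
    rw [this]
    ring
  have L2 : ∀ x, g x * QZ c0 b lam V φ x =
      (1 + c0 / b) * (g x * φ x) - 1 / b * (∑ i : Fin d, (2 * (g x * φ x) -
        g x * φ (x + Pi.single i 1) - g x * φ (x + -Pi.single i 1))) -
        1 / b * (g x * (lam * V x * φ x)) := by
    intro x
    unfold QZ HZ
    have : ∑ i : Fin d, (2 * (g x * φ x) - g x * φ (x + Pi.single i 1) -
        g x * φ (x + -Pi.single i 1)) =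
        g x * (∑ i : Fin d, (2 * φ x - φ (x + Pi.single i 1) - φ (x - Pi.single i 1))) := by
      rw [Finset.mul_sum]
      refine Finset.sum_congr rfl fun i _ => ?_
      rw [sub_eq_add_neg x]
      ring
    rw [this]
    ring
  have s0 : Summable fun x => g x * φ x := hg.summable φ
  have sV : Summable fun x => g x * (lam * V x * φ x) := hg.summable fun x => lam * V x * φ x
  have s1 : Summable fun x => ∑ i : Fin d, (2 * (g x * φ x) -
        g (x + Pi.single i 1) * φ x - g (x + -Pi.single i 1) * φ x) :=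
    summable_sum fun i _ => ((s0.mul_left 2).sub (hs _)).sub (hs _)
  have s2 : Summable fun x => ∑ i : Fin d, (2 * (g x * φ x) -
        g x * φ (x + Pi.single i 1) - g x * φ (x + -Pi.single i 1)) :=
    summable_sum fun i _ => ((s0.mul_left 2).sub (hs' _)).sub (hs' _)
  rw [tsum_congr L1, tsum_congr L2,
    ((s0.mul_left _).sub (s1.mul_left _)).tsum_sub (sV.mul_left _),
    ((s0.mul_left _).sub (s2.mul_left _)).tsum_sub (sV.mul_left _),
    (s0.mul_left _).tsum_sub (s1.mul_left _), (s0.mul_left _).tsum_sub (s2.mul_left _)]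
  congr 2
  rw [tsum_mul_left, tsum_mul_left]
  congr 1
  rw [Summable.tsum_finsetSum (fun i _ => ((s0.mul_left 2).sub (hs _)).sub (hs _)),
    Summable.tsum_finsetSum (fun i _ => ((s0.mul_left 2).sub (hs' _)).sub (hs' _))]
  refine Finset.sum_congr rfl fun i _ => ?_
  rw [((s0.mul_left 2).sub (hs _)).tsum_sub (hs _), (s0.mul_left 2).tsum_sub (hs _),
    ((s0.mul_left 2).sub (hs' _)).tsum_sub (hs' _), (s0.mul_left 2).tsum_sub (hs' _),
    shift_pair g φ, shift_pair g φ]
  have a1 : ∑' x, g x * φ (x - Pi.single i 1) = ∑' x, g x * φ (x + -Pi.single i 1) := by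
    simp only [sub_eq_add_neg]
  have a2 : ∑' x, g x * φ (x - -Pi.single i 1) = ∑' x, g x * φ (x + Pi.single i 1) := by
    simp only [sub_neg_eq_add]
  rw [a1, a2]
  ring

theorem symm_iter {d : ℕ} (c0 b lam : ℝ) (V φ : Zd d → ℝ) (n : ℕ) : ∀ g : Zd d → ℝ, FS g →
    ∑' x, (QZ c0 b lam V)^[n] g x * φ x = ∑' x, g x * (QZ c0 b lam V)^[n] φ x := by
  induction n generalizing φ with
  | zero => intro g _; rfl
  | succ n ih =>
    intro g hg
    rw [Function.iterate_succ_apply', symm c0 b lam V _ φ (hg.iter c0 b lam V n),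
      ih (QZ c0 b lam V φ) g hg, ← Function.iterate_succ_apply]

theorem pair_single {d : ℕ} (x0 : Zd d) (φ : Zd d → ℝ) :
    ∑' x, (Pi.single x0 1 : Zd d → ℝ) x * φ x = φ x0 := by
  rw [tsum_eq_single x0]
  · rw [Pi.single_eq_same, one_mul]
  · intro x hx
    rw [Pi.single_eq_of_ne hx, zero_mul]

end Pool.Agent.H541R3.AND.Trans
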