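import Pool.Agent.H5R2.NBA.ALL

/-! # Zero asymptotic velocity for all states (bounded single-site density)

From `Pool.Agent.H5R2.NB` (vanishing of the limit velocity at `δ_0`) and covariance. -/

set_option autoImplicit false

open MeasureTheory Filter Topology
open scoped BigOperators ENNReal NNReal InnerProductSpace ComplexConjugate

namespace Pool.Agent.H541R3.AND

open Pool.Agent.H5R2.NB Pool.Agent.H5R2.NBA

/-- the limit of the averaged velocity vanishes almost surely, as an operator -/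
theorem zero_all (d : ℕ) (c : ℝ) (ev : (Site d → ℝ) → UG (L2 (Site d)))
    (hev : ∀ V, IsGrp c V (ev V)) (ν : Measure ℝ) [IsProbabilityMeasure ν] (C : ℝ≥0)
    (hC : ν ≤ C • volume) (j : Fin d) (v : L2 (Site d) →L[ℂ] L2 (Site d)) (hv : IsVel c j v)
    (Nk : ℕ → ℕ) (hNk : Tendsto Nk atTop atTop)
    (hG : ∀ᵐ V ∂(PP d ν), ∃ B : L2 (Site d) →L[ℂ] L2 (Site d), Good (ev V) v Nk B) :
    ∀ᵐ V ∂(PP d ν), ∀ B : L2 (Site d) →L[ℂ] L2 (Site d), Good (ev V) v Nk B →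
      ∀ ψ, B ψ = 0 := by
  have h2 := ALL.a_ZERO d c ev hev ν C hC j v hv Nk hNk hG
  have h3 : ∀ᵐ V ∂(PP d ν), ∀ z : Site d, ∀ B : L2 (Site d) →L[ℂ] L2 (Site d),
      Good (ev fun y => V (y + z)) v Nk B → B (dl 0) = 0 := by
    rw [ae_all_iff]
    intro z
    exact ((t_RES d ν).2 z).quasiMeasurePreserving.ae h2
  filter_upwards [h3] with V hV B hB ψ
  have hz : ∀ z : Site d, B (dl z) = 0 := by
    intro z
    obtain ⟨S, hS⟩ := (t_OPS d).1 z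
    obtain ⟨T, hT⟩ := (t_OPS d).1 (-z)
    have h4 := hV z _ (ZAC.good_conj hev hv hS hT V Nk B hB)
    have h5 : S (B (T (dl 0))) = 0 := h4
    rw [LIMB.shift_dl z T hT] at h5
    have h6 := congrArg T h5
    rwa [ZAC.inv2 hS hT, map_zero] at h6
  have hker : Submodule.span ℂ (Set.range (dl (d := d))) ≤ LinearMap.ker B.toLinearMap := by
    rw [Submodule.span_le]
    rintro x ⟨z, rfl⟩
    exact hz z
  have hcl : closure (Submodule.span ℂ (Set.range (dl (d := d))) : Set (L2 (Site d))) ⊆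
      {x | B x = 0} := by
    refine closure_minimal (fun x hx => ?_) (isClosed_eq B.continuous continuous_const)
    exact hker hx
  exact hcl (LIMB.dl_dense d ψ)

/-- mean square convergence to zero along the integers, for an arbitrary random state -/
theorem fina (d : ℕ) (c : ℝ) (ev : (Site d → ℝ) → UG (L2 (Site d)))
    (hev : ∀ V, IsGrp c V (ev V)) (ν : Measure ℝ) [IsProbabilityMeasure ν] (C : ℝ≥0)
    (hC : ν ≤ C • volume) (j : Fin d) (v : L2 (Site d) →L[ℂ] L2 (Site d)) (hv : IsVel c j v)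
    (ψ : (Site d → ℝ) → L2 (Site d)) (M : ℝ) (hψ : AEStronglyMeasurable ψ (PP d ν))
    (hM : ∀ V, ‖ψ V‖ ≤ M) :
    Tendsto (fun N : ℕ => ∫⁻ V, ‖avP (ev V) v N (ψ V)‖ₑ ^ 2 ∂(PP d ν)) atTop (𝓝 0) := by
  have : IsProbabilityMeasure (PP d ν) := by unfold PP; infer_instance
  refine tendsto_of_subseq_tendsto ?_
  intro Mk hMk
  obtain ⟨a, ha, hG⟩ := Pool.Agent.H5R2.NBA.t_LIM2 d c ev hev ν j v hv Mk hMk
  have hNk : Tendsto (Mk ∘ a) atTop atTop := hMk.comp ha.tendsto_atTop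
  have hz := zero_all d c ev hev ν C hC j v hv (Mk ∘ a) hNk hG
  refine ⟨a, ?_⟩
  have key : Tendsto (fun k => ∫⁻ V, ‖avP (ev V) v (Mk (a k)) (ψ V)‖ₑ ^ 2 ∂(PP d ν)) atTop
      (𝓝 (∫⁻ _V, 0 ∂(PP d ν))) := by
    refine tendsto_lintegral_of_dominated_convergence'
      (fun _ => ENNReal.ofReal ((‖v‖ * M) ^ 2)) (fun k => ?_) (fun k => ?_) ?_ ?_
    · exact (FINA.aesm_avP ev hev v _ _ ψ hψ).enorm.pow_const 2
    · refine Eventually.of_forall fun V => ?_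
      have h3 : ‖avP (ev V) v (Mk (a k)) (ψ V)‖ ≤ ‖v‖ * M := by
        refine (LIMB.norm_avg _ (‖v‖ * ‖ψ V‖) (fun s => LIMB.norm_P _ v _ _ _) _).trans ?_
        exact mul_le_mul_of_nonneg_left (hM V) (norm_nonneg _)
      show ‖avP (ev V) v (Mk (a k)) (ψ V)‖ₑ ^ 2 ≤ ENNReal.ofReal ((‖v‖ * M) ^ 2)
      rw [← ofReal_norm, ← ENNReal.ofReal_pow (norm_nonneg _)]
      exact ENNReal.ofReal_le_ofReal (pow_le_pow_left₀ (norm_nonneg _) h3 2)
    · rw [lintegral_const]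
      simp
    · filter_upwards [hG, hz] with V hV hV2
      obtain ⟨B, hB⟩ := hV
      have h4 := (hB (ψ V)).1
      rw [hV2 B hB (ψ V)] at h4
      have h5 := h4.enorm
      rw [enorm_zero] at h5
      have h6 := (ENNReal.continuous_pow 2).tendsto 0 |>.comp h5
      simpa [Function.comp_def] using h6
  simpa using key

/-- mean square convergence to zero, real times, for an arbitrary random state -/
theorem fin (d : ℕ) (c : ℝ) (ev : (Site d → ℝ) → UG (L2 (Site d)))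
    (hev : ∀ V, IsGrp c V (ev V)) (ν : Measure ℝ) [IsProbabilityMeasure ν] (C : ℝ≥0)
    (hC : ν ≤ C • volume) (j : Fin d) (v : L2 (Site d) →L[ℂ] L2 (Site d)) (hv : IsVel c j v)
    (ψ : (Site d → ℝ) → L2 (Site d)) (M : ℝ) (hψ : AEStronglyMeasurable ψ (PP d ν))
    (hM : ∀ V, ‖ψ V‖ ≤ M) :
    Tendsto (fun T : ℝ => ∫⁻ V, ‖((T : ℂ)⁻¹) • ∫ s in (0 : ℝ)..T,
        (ev V).U (-s) (v ((ev V).U s (ψ V)))‖ₑ ^ 2 ∂(PP d ν)) atTop (𝓝 0) := by
  have : IsProbabilityMeasure (PP d ν) := by unfold PP; infer_instance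
  have h := fina d c ev hev ν C hC j v hv ψ M hψ hM
  have hM0 : 0 ≤ M := (norm_nonneg _).trans (hM 0)
  have hfl : Tendsto (fun t : ℝ => ⌊t⌋₊) atTop atTop := tendsto_nat_floor_atTop
  have h2 := h.comp hfl
  have h3 : Tendsto (fun T : ℝ => 2 * (∫⁻ V, ‖avP (ev V) v ⌊T⌋₊ (ψ V)‖ₑ ^ 2 ∂(PP d ν)) +
      ENNReal.ofReal (2 * (T⁻¹ * (‖v‖ * M)) ^ 2)) atTop (𝓝 0) := by
    have a1 : Tendsto (fun T : ℝ => 2 * (∫⁻ V, ‖avP (ev V) v ⌊T⌋₊ (ψ V)‖ₑ ^ 2 ∂(PP d ν)))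
        atTop (𝓝 0) := by
      have := ENNReal.Tendsto.const_mul (a := 2) h2 (Or.inr (by norm_num))
      simpa using this
    have a2 : Tendsto (fun T : ℝ => ENNReal.ofReal (2 * (T⁻¹ * (‖v‖ * M)) ^ 2)) atTop
        (𝓝 0) := by
      have b1 : Tendsto (fun T : ℝ => 2 * (T⁻¹ * (‖v‖ * M)) ^ 2) atTop (𝓝 0) := by
        have b2 := ((tendsto_inv_atTop_zero (𝕜 := ℝ)).mul_const (‖v‖ * M)).pow 2
        have b3 := b2.const_mul 2
        simpa using b3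
      have := ENNReal.tendsto_ofReal b1
      simpa using this
    simpa using a1.add a2
  refine tendsto_of_tendsto_of_tendsto_of_le_of_le' tendsto_const_nhds h3
    (Eventually.of_forall fun t => bot_le) ?_
  filter_upwards [eventually_ge_atTop (1 : ℝ)] with T hT
  have hm2 : AEMeasurable (fun V => ‖avP (ev V) v ⌊T⌋₊ (ψ V)‖ₑ ^ 2) (PP d ν) :=
    (FINA.aesm_avP ev hev v _ _ ψ hψ).enorm.pow_const 2
  have hpt : ∀ V, ‖((T : ℂ)⁻¹) • ∫ s in (0 : ℝ)..T,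
        (ev V).U (-s) (v ((ev V).U s (ψ V)))‖ₑ ^ 2 ≤
      2 * ‖avP (ev V) v ⌊T⌋₊ (ψ V)‖ₑ ^ 2 + ENNReal.ofReal (2 * (T⁻¹ * (‖v‖ * M)) ^ 2) := by
    intro V
    have g1 := FIN.norm_real (ev V) v (ψ V) T hT
    have g2 : T⁻¹ * (‖v‖ * ‖ψ V‖) ≤ T⁻¹ * (‖v‖ * M) :=
      mul_le_mul_of_nonneg_left (mul_le_mul_of_nonneg_left (hM V) (norm_nonneg _))
        (by positivity)
    set A := ‖((T : ℂ)⁻¹) • ∫ s in (0 : ℝ)..T, (ev V).U (-s) (v ((ev V).U s (ψ V)))‖ with hA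
    set Bn := ‖avP (ev V) v ⌊T⌋₊ (ψ V)‖ with hBn
    set D := T⁻¹ * (‖v‖ * M) with hD
    have g3 : A ^ 2 ≤ 2 * Bn ^ 2 + 2 * D ^ 2 := by
      have hA0 : 0 ≤ A := norm_nonneg _
      have g4 : A ≤ Bn + D := by linarith
      have g5 : A ^ 2 ≤ (Bn + D) ^ 2 := pow_le_pow_left₀ hA0 g4 2
      nlinarith [sq_nonneg (Bn - D)]
    have e2 : (2 : ℝ≥0∞) * ENNReal.ofReal (Bn ^ 2) = ENNReal.ofReal (2 * Bn ^ 2) := by
      rw [ENNReal.ofReal_mul (by norm_num)]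
      norm_num
    rw [← ofReal_norm, ← ofReal_norm, ← hA, ← hBn, ← ENNReal.ofReal_pow (norm_nonneg _),
      ← ENNReal.ofReal_pow (norm_nonneg _), e2,
      ← ENNReal.ofReal_add (by positivity) (by positivity)]
    exact ENNReal.ofReal_le_ofReal g3
  calc (∫⁻ V, ‖((T : ℂ)⁻¹) • ∫ s in (0 : ℝ)..T,
        (ev V).U (-s) (v ((ev V).U s (ψ V)))‖ₑ ^ 2 ∂(PP d ν))
      ≤ ∫⁻ V, (2 * ‖avP (ev V) v ⌊T⌋₊ (ψ V)‖ₑ ^ 2 +
        ENNReal.ofReal (2 * (T⁻¹ * (‖v‖ * M)) ^ 2)) ∂(PP d ν) :=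
        lintegral_mono fun V => hpt V
    _ = _ := by
        rw [lintegral_add_right _ measurable_const, lintegral_const_mul'' _ hm2]
        simp

end Pool.Agent.H541R3.AND
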